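import Pool.Agent.K1H20.CK.Main

/-!
# The action on the Chow groups
-/

open CategoryTheory CategoryTheory.Limits AlgebraicGeometry
open Pool.Agent.H914 Pool.Agent.H914.VarClass Pool.Agent.H914.VarClass.Obj Pool.Agent.R903

universe u v w

namespace Pool.Agent.K1H20.CK

variable {k : Type u} [Field k] {𝒱 : VarClass k} {C : ChowTheory.{u, v} 𝒱}
  {W : WeilTheory.{u, v, w} C} {X : 𝒱.Obj} {π π' : ℕ → C.CH (X.prod X)}

/-! ### cycles of codimension zero -/

lemma cyc_zero (X : SmVar k) {z : X.Cycles} (hz : X.IsCyc 0 z) :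
    ∃ q : ℚ, z = q • X.fundCycle := by
  classical
  refine ⟨X.coeff z (genericPoint X.X), ?_⟩
  have hgen : ∀ x : X.X, X.coeff z x ≠ 0 → x = genericPoint X.X := by
    intro x hx
    have h1 : Order.coheight x = ((0 : ℕ) : ℕ∞) := hz x hx
    rw [Nat.cast_zero, Order.coheight_eq_zero] at h1
    have h2 : x ≤ genericPoint X.X := genericPoint_specializes x
    have h3 : genericPoint X.X ≤ x := h1 h2
    have h4 : x ⤳ genericPoint X.X := h3
    have h5 : genericPoint X.X ⤳ x := genericPoint_specializes x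
    exact (h4.antisymm h5).eq
  refine Finsupp.ext (M := ℚ) (α := X.X) fun x => ?_
  have h6 : DFunLike.coe (F := X.X →₀ ℚ) (X.coeff z (genericPoint X.X) • X.fundCycle) x =
      X.coeff z (genericPoint X.X) * DFunLike.coe (F := X.X →₀ ℚ) X.fundCycle x :=
    Finsupp.smul_apply (M := ℚ) (α := X.X) _ _ x
  rw [h6]
  by_cases hx : x = genericPoint X.X
  · subst hx
    have h7 : DFunLike.coe (F := X.X →₀ ℚ) X.fundCycle (genericPoint X.X) = 1 :=
      Finsupp.single_eq_same
    rw [h7, mul_one]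
    rfl
  · have h7 : DFunLike.coe (F := X.X →₀ ℚ) X.fundCycle x = 0 :=
      Finsupp.single_eq_of_ne (M := ℚ) (α := X.X) hx
    rw [h7, mul_zero]
    by_contra h8
    exact hx (hgen x h8)

lemma gr_zero {x : C.CH X} (hx : x ∈ C.gr X 0) : ∃ q : ℚ, x = q • (1 : C.CH X) := by
  obtain ⟨z, hz, rfl⟩ := C.mem_gr.1 hx
  obtain ⟨q, rfl⟩ := cyc_zero X.V hz
  exact ⟨q, by rw [map_smul, C.cls_fund]⟩

lemma noPhantoms_of_dim_zero (hP : C.Polarized) (hd : X.dim = 0) : W.NoPhantoms X := by
  intro e he _ h0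
  rw [hd] at he
  obtain ⟨q, rfl⟩ := gr_zero he
  have h1 := h0 1
  rw [W.act_smul, LinearMap.smul_apply, WeilTheory.act_apply, map_one, map_one, mul_one] at h1
  have h2 : W.push (snd X X) 1 = W.tr X 1 • (1 : W.H X) := by
    have := W.push_snd (X := X) (Y := X) 1 1
    rwa [map_one, map_one, mul_one] at this
  obtain ⟨D, _, hdeg⟩ := hP X
  rw [hd, pow_zero] at hdeg
  have h3 : W.tr X 1 = (C.deg X 1 : W.K) := by
    rw [← W.tr_cl, map_one (W.cl X)]
  have h4 : (C.deg X 1 : W.K) ≠ 0 := by exact_mod_cast hdeg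
  have h5 : (1 : W.H X) ≠ 0 := by
    intro h6
    apply h4
    rw [← h3, h6, map_zero]
  rw [h2, h3, smul_smul] at h1
  have h6 := (smul_eq_zero.1 h1).resolve_right h5
  have h7 := (mul_eq_zero.1 h6).resolve_right h4
  have h8 : q = 0 := by exact_mod_cast h7
  rw [h8, zero_smul]

/-! ### the four equivalent conditions -/

theorem tfae (hP : C.Polarized) (hCK : W.HasCK X) :
    List.TFAE [W.Triangular X, WeightIndep W X,
      W.NoPhantoms X ∧ ∃ π : ℕ → C.CH (X.prod X), W.IsCK X π ∧ C.IsTriangular π,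
      W.NoPhantoms X ∧ ∀ π : ℕ → C.CH (X.prod X), W.IsCK X π → C.IsTriangular π] := by
  obtain ⟨ρ, hρ⟩ := hCK
  tfae_have 1 → 2 := fun h => weightIndep_iff.2 (pairZero_of_triangular h)
  tfae_have 2 → 4 := by
    intro h
    rw [weightIndep_iff] at h
    refine ⟨?_, fun π hπ => isTriangular_of_pairZero h hπ⟩
    rcases Nat.eq_zero_or_pos X.dim with hd | hd
    · exact noPhantoms_of_dim_zero hP hd
    · exact noPhantoms_of_pairZero h hd hρ
  tfae_have 4 → 3 := fun h => ⟨h.1, ρ, hρ, h.2 ρ hρ⟩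
  tfae_have 3 → 1 := by
    rintro ⟨h, π, hπ, hT⟩
    exact triangular_of h hπ hT
  tfae_finish

/-! ### the action -/

theorem murreC_of_pair (h : ∀ π π' : ℕ → C.CH (X.prod X), W.IsCK X π → W.IsCK X π' →
    ∀ a b, a < b → ∀ x, C.act (π' b) (C.act (π a) x) = 0) : W.MurreC X := by
  have key : ∀ (i k : ℕ) (π π' : ℕ → C.CH (X.prod X)), W.IsCK X π → W.IsCK X π' →
      C.ckFil π i k ≤ C.ckFil π' i k := by
    intro i k π π' hπ hπ' x hx
    rw [WeilTheory.mem_ckFil hπ] at hx
    rw [WeilTheory.mem_ckFil hπ']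
    refine ⟨hx.1, fun b hb => ?_⟩
    rw [← hπ.sum_act x, map_sum]
    refine Finset.sum_eq_zero fun a _ => ?_
    by_cases ha : 2 * i < a + k
    · rw [hx.2 a ha, map_zero]
    · exact h π π' hπ hπ' a b (by omega) x
  intro i k π π' hπ hπ'
  exact le_antisymm (key i k π π' hπ hπ') (key i k π' π hπ' hπ)

lemma isZeroOp_of_gr {T : C.CH X →ₗ[ℚ] C.CH X} (h : ∀ i, ∀ x ∈ C.gr X i, T x = 0) :
    IsZeroOp T := by
  intro a
  refine gr_induction (C.isInternal X) (p := fun a => T a = 0) h ?_ a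
  intro b c hb hc
  rw [map_add, hb, hc, add_zero]

/-- Independence for `X` implies that each decomposition acts in a triangular way. -/
theorem actTriangular_of_murreC (hP : C.Polarized) (hC : W.MurreC X) (h : W.IsCK X π) :
    ActTriangular C π := by
  intro a b hab γ hγ
  apply isZeroOp_of_gr
  intro i x hx
  by_cases hb : 2 * X.dim < b
  · rw [h.eq_zero hb, C.comp_zero, C.act_zero, LinearMap.zero_apply]
  set φ := C.comp (C.comp (π a) γ) (π b) with hφ
  have hs : C.comp (π a) φ = φ := by rw [hφ, ← C.comp_assoc, ← C.comp_assoc, h.idem]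
  have hx' : C.act φ x = C.act φ (C.act (π a) x) := by
    rw [← C.act_comp, hs]
  by_cases ha : 2 * i < a
  · have h1 := (WeilTheory.ckFil_zero_eq_iff h).1 ((hC i 0).murreB0 hP π h) a ha x hx
    rw [hx', h1, map_zero]
  have h0 : W.act φ = 0 := LinearMap.ext (isZeroMap_block h h hγ (by omega))
  have ht : C.comp φ (π b) = φ := by rw [hφ, C.comp_assoc, h.idem]
  have hCK := h.shift (C.comp_mem (C.comp_mem (h.mem a) hγ rfl) (h.mem b) rfl) h0
    (s := a) (t := b) (by omega) hs ht (by omega) (by omega)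
  have hz : C.act (π a) x ∈ C.ckFil π i (2 * i - a) := by
    rw [WeilTheory.mem_ckFil h]
    refine ⟨C.act_mem (h.mem a) hx rfl, fun c hc => ?_⟩
    rw [h.act_act, if_neg (by omega)]
  rw [hC i (2 * i - a) π _ h hCK, WeilTheory.mem_ckFil hCK] at hz
  have h2 := hz.2 b (by omega)
  rw [WeilTheory.shiftCK, if_neg (by omega), if_pos rfl, C.act_add, LinearMap.add_apply,
    h.act_act, if_neg (by omega), zero_add, C.act_smul, LinearMap.smul_apply, ← hx'] at h2
  simpa using h2

/-- If `F^k CH^i` is independent, with `0 ≤ 2 i - k < 2 dim X`, then the phantoms which commute with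
a decomposition act as zero on `CH^i(X)`. -/
theorem phantom_act (h : W.IsCK X π) {e : C.CH (X.prod X)}
    (he : e ∈ C.gr (X.prod X) X.dim) (hi : C.comp e e = e) (h0 : IsZeroMap (W.act e))
    (hc : ∀ j, C.comp (π j) e = C.comp e (π j)) {i m : ℕ} (hm : m ≤ 2 * i)
    (hm' : 2 * i < m + 2 * X.dim) (hI : W.Indep X i m) {x : C.CH X} (hx : x ∈ C.gr X i) :
    C.act e x = 0 := by
  have h1 := move h he hi h0 hc (s := 0) (by omega)
  have h2 := move h he hi h0 hc (s := 2 * X.dim) le_rfl
  have hee : C.act e (C.act e x) = C.act e x := by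
    rw [← C.act_comp, hi]
  have h3 : ∀ j, C.act (C.comp (π j) e) (C.act e x) = C.act (π j) (C.act e x) := by
    intro j
    rw [hc, C.act_comp, hee]
  have hy : C.act e x ∈ C.ckFil (moveCK C π e 0) i m := by
    rw [WeilTheory.mem_ckFil h1]
    refine ⟨C.act_mem he hx rfl, fun b hb => ?_⟩
    rw [moveCK, if_neg (by omega), add_zero, C.act_sub, LinearMap.sub_apply, h3, sub_self]
  rw [hI _ _ h1 h2, WeilTheory.mem_ckFil h2] at hy
  have h4 := hy.2 (2 * X.dim) (by omega)
  rw [moveCK, if_pos rfl, C.act_add, C.act_sub, LinearMap.add_apply, LinearMap.sub_apply, h3,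
    sub_self, zero_add, hee] at h4
  exact h4

theorem phantomsActZero_of_murreC (hP : C.Polarized) (hC : W.MurreC X) (h : W.IsCK X π) :
    PhantomsActZero W π := by
  intro e he hi h0 hc
  rcases Nat.eq_zero_or_pos X.dim with hd | hd
  · have := noPhantoms_of_dim_zero hP hd e he hi h0
    intro x
    rw [this, C.act_zero, LinearMap.zero_apply]
  apply isZeroOp_of_gr
  intro i x hx
  by_cases h1 : X.dim < i
  · rw [C.gr_eq_bot X i h1, Submodule.mem_bot] at hx
    rw [hx, map_zero]
  by_cases h2 : i = X.dim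
  · exact phantom_act h he hi h0 hc (i := i) (m := 1) (by omega) (by omega) (hC i 1) hx
  · exact phantom_act h he hi h0 hc (i := i) (m := 0) (by omega) (by omega) (hC i 0) hx

end Pool.Agent.K1H20.CK
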