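import Mathlib

/-!
# Complete orthogonal systems in a triangular ring
-/

namespace Pool.Agent.K1H20.CK

variable {A : Type*} [Ring A] {n : ℕ}

/-- a complete orthogonal system -/
structure CO (n : ℕ) (p : ℕ → A) : Prop where
  idem : ∀ j, p j * p j = p j
  orth : ∀ i j, i ≠ j → p i * p j = 0
  sum : ∑ j ∈ Finset.range (n + 1), p j = 1

namespace CO

variable {p q r : ℕ → A}

lemma zero_of_lt (h : CO n p) {j : ℕ} (hj : n < j) : p j = 0 := by
  rw [← mul_one (p j), ← h.sum, Finset.mul_sum]
  refine Finset.sum_eq_zero fun i hi => h.orth _ _ ?_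
  rw [Finset.mem_range] at hi
  omega

/-- insertion of the unit -/
lemma mul_eq_sum (h : CO n p) (x y : A) :
    x * y = ∑ c ∈ Finset.range (n + 1), x * p c * y := by
  rw [← Finset.sum_mul, ← Finset.mul_sum, h.sum, mul_one]

lemma mul_eq_zero_of (h : CO n p) (x y : A) (h0 : ∀ c, x * p c * y = 0) : x * y = 0 := by
  rw [h.mul_eq_sum]
  exact Finset.sum_eq_zero fun c _ => h0 c

lemma eq_zero_of (h : CO n p) (x : A) (h0 : ∀ c, x * p c = 0) : x = 0 := by
  have := h.mul_eq_zero_of x 1 (fun c => by rw [h0, zero_mul])
  rwa [mul_one] at this

/-- the diagonal blocks of an idempotent are idempotent -/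
lemma diag_idem (h : CO n p) {e : A} (he : e * e = e)
    (tri : ∀ a b, a < b → p b * e * p a = 0) (a : ℕ) :
    (p a * e * p a) * (p a * e * p a) = p a * e * p a := by
  have h1 : p a * e * p a * (p a * e * p a) = (p a * e) * p a * (e * p a) := by
    calc p a * e * p a * (p a * e * p a) = (p a * e) * (p a * p a) * (e * p a) := by noncomm_ring
      _ = _ := by rw [h.idem]
  have h2 : p a * e * p a = (p a * e) * (e * p a) := by
    calc p a * e * p a = p a * (e * e) * p a := by rw [he]
      _ = _ := by noncomm_ring
  rw [h1]
  conv_rhs => rw [h2, h.mul_eq_sum (p a * e) (e * p a)]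
  by_cases ha : a ≤ n
  · rw [Finset.sum_eq_single a]
    · intro c _ hc
      rcases lt_or_gt_of_ne hc with h3 | h3
      · rw [tri c a h3, zero_mul]
      · have : p a * e * p c * (e * p a) = p a * e * (p c * e * p a) := by noncomm_ring
        rw [this, tri a c h3, mul_zero]
    · intro h3
      exact absurd (Finset.mem_range.2 (by omega)) h3
  · have h4 := h.zero_of_lt (j := a) (by omega)
    rw [h4]
    simp

/-- an idempotent with zero diagonal is zero -/
lemma eq_zero_of_diag (h : CO n p) {e : A} (he : e * e = e)
    (tri : ∀ a b, a < b → p b * e * p a = 0) (hd : ∀ a, p a * e * p a = 0) : e = 0 := by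
  have h1 : ∀ a, e * p a = 0 := by
    intro a
    induction a using Nat.strong_induction_on with
    | _ a ih =>
      have h2 : e * p a = e * (e * p a) := by rw [← mul_assoc, he]
      rw [h2]
      apply h.mul_eq_zero_of
      intro c
      rcases lt_trichotomy c a with h3 | h3 | h3
      · rw [ih c h3, zero_mul]
      · rw [h3]
        have : e * p a * (e * p a) = e * (p a * e * p a) := by noncomm_ring
        rw [this, hd, mul_zero]
      · have : e * p c * (e * p a) = e * (p c * e * p a) := by noncomm_ring
        rw [this, tri a c h3, mul_zero]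
  exact h.eq_zero_of e h1

/-- If `q` is a second system, the ring is triangular for `p`, and the off-diagonal diagonal
blocks vanish, then both mixed products vanish. -/
lemma mixed (hp : CO n p) (hq : CO n q)
    (tri : ∀ a b, a < b → ∀ c, p b * q c * p a = 0)
    (hd : ∀ a b, a ≠ b → p a * q b * p a = 0) :
    (∀ a b, a < b → q b * p a = 0) ∧ ∀ a b, a < b → p b * q a = 0 := by
  constructor
  · intro a
    induction a using Nat.strong_induction_on with
    | _ a ih =>
      intro b hab
      have h2 : q b * p a = q b * (q b * p a) := by rw [← mul_assoc, hq.idem]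
      rw [h2]
      apply hp.mul_eq_zero_of
      intro c
      rcases lt_trichotomy c a with h3 | h3 | h3
      · rw [ih c h3 b (by omega), zero_mul]
      · rw [h3]
        have : q b * p a * (q b * p a) = q b * (p a * q b * p a) := by noncomm_ring
        rw [this, hd a b (by omega), mul_zero]
      · have : q b * p c * (q b * p a) = q b * (p c * q b * p a) := by noncomm_ring
        rw [this, tri a c h3, mul_zero]
  · intro a
    have key : ∀ m b, n < b + m → a < b → p b * q a = 0 := by
      intro m
      induction m with
      | zero =>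
        intro b hb _
        rw [hp.zero_of_lt (by omega), zero_mul]
      | succ m ih =>
        intro b hb hab
        have h2 : p b * q a = (p b * q a) * q a := by rw [mul_assoc, hq.idem]
        rw [h2]
        apply hp.mul_eq_zero_of
        intro c
        rcases lt_trichotomy c b with h3 | h3 | h3
        · rw [tri c b h3, zero_mul]
        · rw [h3, hd b a (by omega), zero_mul]
        · rw [mul_assoc, ih c (by omega) (by omega), mul_zero]
    intro b hab
    exact key (n + 1) b (by omega) hab

/-- Vanishing of all mixed blocks. -/
lemma mixed_blocks (hp : CO n p) (g : A)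
    (tri : ∀ a b, a < b → p b * g * p a = 0)
    (h1 : ∀ a b, a < b → q b * p a = 0) (h2 : ∀ a b, a < b → p b * r a = 0) :
    ∀ a b, a < b → q b * g * r a = 0 := by
  intro a b hab
  have h3 : q b * g * r a = q b * (g * r a) := by rw [mul_assoc]
  rw [h3]
  apply hp.mul_eq_zero_of
  intro c
  by_cases hc : c < b
  · rw [h1 c b hc, zero_mul]
  have h4 : q b * p c * (g * r a) = (q b * p c * g) * r a := by noncomm_ring
  rw [h4]
  apply hp.mul_eq_zero_of
  intro d
  by_cases hd : a < d
  · rw [mul_assoc, h2 a d hd, mul_zero]
  have h5 : q b * p c * g * p d * r a = q b * (p c * g * p d) * r a := by noncomm_ring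
  rw [h5, tri d c (by omega), mul_zero, zero_mul]

end CO

end Pool.Agent.K1H20.CK
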