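import Pool.Agent.R903.MurreDefs

/-!
# Algebraic cohomology: definitions
-/

open CategoryTheory CategoryTheory.Limits AlgebraicGeometry
open Pool.Agent.H914 Pool.Agent.H914.VarClass Pool.Agent.H914.VarClass.Obj Pool.Agent.R903

universe u v w

namespace Pool.Agent.K1H20.CK

section Alg

variable {A : Type v} [CommRing A] [Algebra ℚ A] {K : Type w} [Field K] {H : Type w} [Ring H]
  [Algebra K H]

/-- The subspace `U` is spanned by elements of the image of `G` under `cl`. -/
def SpannedBy (U : Submodule K H) (G : Submodule ℚ A) (cl : A →+* H) : Prop :=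
  ∀ a ∈ U, a ∈ Submodule.span K {b | ∃ x ∈ G, cl x = b}

/-- `cl` is injective on `G`. -/
def InjectiveOn (G : Submodule ℚ A) (cl : A →+* H) : Prop := ∀ x ∈ G, cl x = 0 → x = 0

/-- `T` is zero on the elements `x` of `G` with `cl x = 0`, and on all of `G` if `all` holds. -/
def KillsOn (G : Submodule ℚ A) (cl : A →+* H) (all : Prop) (T : A →ₗ[ℚ] A) : Prop :=
  ∀ x ∈ G, all ∨ cl x = 0 → T x = 0

/-- The elements of `G` on which `deg` vanishes are zero. -/
def DegreeInjectiveOn (G : Submodule ℚ A) (deg : A →ₗ[ℚ] ℚ) : Prop := ∀ x ∈ G, deg x = 0 → x = 0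

end Alg

variable {k : Type u} [Field k] {𝒱 : VarClass k} {C : ChowTheory.{u, v} 𝒱}

/-- `H^(2j)(X)` is spanned by the classes of the elements of `CH^j(X)`. -/
def AlgebraicIn (W : WeilTheory.{u, v, w} C) (X : 𝒱.Obj) (j : ℕ) : Prop :=
  SpannedBy (W.gr X (2 * j)) (C.gr X j) (W.cl X)

/-- The cohomology of `X` is spanned by algebraic classes: the odd cohomology vanishes and
`H^(2j)(X)` is spanned by the classes of the elements of `CH^j(X)`, for all `j`. -/
def AlgebraicCohomology (W : WeilTheory.{u, v, w} C) (X : 𝒱.Obj) : Prop :=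
  (∀ j, W.gr X (2 * j + 1) = ⊥) ∧ ∀ j, AlgebraicIn W X j

/-- The cycle class map is injective on `CH^i(X)`. -/
def ClassInjective (W : WeilTheory.{u, v, w} C) (X : 𝒱.Obj) (i : ℕ) : Prop :=
  InjectiveOn (C.gr X i) (W.cl X)

/-- `0 ≤ 2 i - m < 2 dim X`. -/
def InRange (X : 𝒱.Obj) (i m : ℕ) : Prop := m ≤ 2 * i ∧ 2 * i < m + 2 * X.dim

/-- `π (2j)` acts as zero on the homologically trivial part of `CH^i(X)`, and on all of `CH^i(X)` if
`i ≠ j`. -/
def KillsTrivial (W : WeilTheory.{u, v, w} C) (X : 𝒱.Obj) (π : ℕ → C.CH (X.prod X)) (j i : ℕ) :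
    Prop :=
  KillsOn (C.gr X i) (W.cl X) (i ≠ j) (C.act (π (2 * j)))

/-- If `F^m CH^i(X)` is independent of the decomposition for one `m` in the range, then
`KillsTrivial` holds for each Chow–Künneth decomposition of `X`. -/
def IndependenceKills (W : WeilTheory.{u, v, w} C) (X : 𝒱.Obj) (j : ℕ) : Prop :=
  ∀ π : ℕ → C.CH (X.prod X), W.IsCK X π → ∀ i m, InRange X i m → W.Indep X i m →
    KillsTrivial W X π j i

/-- The zero-cycles of degree zero on `X` are zero in `CH^(dim X)(X)`. -/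
def ZeroCyclesTrivial (C : ChowTheory.{u, v} 𝒱) (X : 𝒱.Obj) : Prop :=
  DegreeInjectiveOn (C.gr X X.dim) (C.deg X)

end Pool.Agent.K1H20.CK
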