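import Pool.Agent.K1H20.CK.Proj

/-!
# Varieties whose cohomology is spanned by algebraic classes
-/

open CategoryTheory CategoryTheory.Limits AlgebraicGeometry
open Pool.Agent.H914 Pool.Agent.H914.VarClass Pool.Agent.H914.VarClass.Obj Pool.Agent.R903

universe u v w

namespace Pool.Agent.K1H20.CK

variable {k : Type u} [Field k] {𝒱 : VarClass k} {C : ChowTheory.{u, v} 𝒱}
  {W : WeilTheory.{u, v, w} C} {X : 𝒱.Obj}

/-- a system of algebraic projectors: `p j` acts on the cohomology as the projector to
`H^(2j)`, and they are orthogonal idempotents -/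
structure AlgSystem (W : WeilTheory.{u, v, w} C) (X : 𝒱.Obj) (p : ℕ → C.CH (X.prod X)) :
    Prop where
  mem : ∀ j, p j ∈ C.gr (X.prod X) X.dim
  zero : ∀ j, X.dim < j → p j = 0
  idem : ∀ j, C.comp (p j) (p j) = p j
  orth : ∀ i j, i ≠ j → C.comp (p i) (p j) = 0
  same : ∀ j, ∀ x ∈ W.gr X (2 * j), W.act (p j) x = x
  other : ∀ j l, l ≠ 2 * j → ∀ x ∈ W.gr X l, W.act (p j) x = 0

lemma exists_algSystem (hA : AlgebraicCohomology W X) :
    ∃ p : ℕ → C.CH (X.prod X), AlgSystem W X p := by
  have hD : ∀ j, ∃ (n : ℕ) (a b : Fin n → C.CH X), j ≤ X.dim → DualFamily W X j n a b := by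
    intro j
    by_cases hj : j ≤ X.dim
    · obtain ⟨n, a, b, h⟩ := exists_dual hj (hA.2 j) (hA.2 _)
      exact ⟨n, a, b, fun _ => h⟩
    · exact ⟨0, fun _ => 0, fun _ => 0, fun h => absurd h hj⟩
  choose n a b hD using hD
  refine ⟨fun j => if j ≤ X.dim then algProj C (a j) (b j) else 0, ?_, ?_, ?_, ?_, ?_, ?_⟩
  · intro j
    split_ifs with h
    · exact algProj_mem (hD j h) h
    · exact Submodule.zero_mem _
  · intro j h
    rw [if_neg (by omega)]
  · intro j
    split_ifs with h
    · exact algProj_idem (hD j h) (fun _ => rfl)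
    · exact C.comp_zero _
  · intro i j hij
    split_ifs with h1 h2 h2
    · rw [algProj_comp]
      refine Finset.sum_eq_zero fun s _ => ?_
      have h3 : C.act (algProj C (a j) (b j)) (a i s) = 0 := by
        rw [act_algProj]
        refine Finset.sum_eq_zero fun t _ => ?_
        rw [deg_eq_zero W (C.mul_mem ((hD i h1).memA s) ((hD j h2).memB t)) (by omega), zero_smul]
      dsimp only
      rw [h3, ChowTheory.ext, map_zero, mul_zero]
    · exact C.comp_zero _
    · exact C.zero_comp _
    · exact C.comp_zero _
  · intro j x hx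
    split_ifs with h
    · exact hact_algProj_same (hD j h) (fun _ => rfl) hx
    · rw [W.gr_eq_bot X _ (by omega), Submodule.mem_bot] at hx
      rw [hx, map_zero]
  · intro j l hl x hx
    split_ifs with h
    · exact hact_algProj_other (hD j h) h hl hx
    · rw [W.act_zero, LinearMap.zero_apply]

section

variable {p : ℕ → C.CH (X.prod X)}

/-- the phantom part -/
noncomputable def rest (C : ChowTheory.{u, v} 𝒱) {X : 𝒱.Obj} (p : ℕ → C.CH (X.prod X)) :
    C.CH (X.prod X) := C.diagC X - ∑ j ∈ Finset.range (X.dim + 1), p j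

/-- the decomposition with the phantom part in degree `0` -/
noncomputable def algCK (C : ChowTheory.{u, v} 𝒱) {X : 𝒱.Obj} (p : ℕ → C.CH (X.prod X)) (l : ℕ) :
    C.CH (X.prod X) :=
  (if l % 2 = 0 then p (l / 2) else 0) + if l = 0 then rest C p else 0

variable (h : AlgSystem W X p)
include h

lemma comp_sum_p (i : ℕ) : C.comp (p i) (∑ j ∈ Finset.range (X.dim + 1), p j) = p i := by
  rw [C.comp_sum]
  by_cases hi : X.dim < i
  · rw [h.zero i hi]
    exact Finset.sum_eq_zero fun j _ => C.zero_comp _
  · rw [Finset.sum_eq_single i]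
    · exact h.idem i
    · intro j _ hj
      exact h.orth i j (Ne.symm hj)
    · intro h1
      exact absurd (Finset.mem_range.2 (by omega)) h1

lemma sum_p_comp (i : ℕ) : C.comp (∑ j ∈ Finset.range (X.dim + 1), p j) (p i) = p i := by
  rw [C.sum_comp]
  by_cases hi : X.dim < i
  · rw [h.zero i hi]
    exact Finset.sum_eq_zero fun j _ => C.comp_zero _
  · rw [Finset.sum_eq_single i]
    · exact h.idem i
    · intro j _ hj
      exact h.orth j i hj
    · intro h1
      exact absurd (Finset.mem_range.2 (by omega)) h1

lemma comp_rest (i : ℕ) : C.comp (p i) (rest C p) = 0 := by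
  rw [rest, comp_sub', C.comp_diagC, comp_sum_p h, sub_self]

lemma rest_comp (i : ℕ) : C.comp (rest C p) (p i) = 0 := by
  rw [rest, sub_comp', C.diagC_comp, sum_p_comp h, sub_self]

lemma rest_idem : C.comp (rest C p) (rest C p) = rest C p := by
  conv_lhs =>
    arg 3
    rw [rest]
  rw [comp_sub', C.comp_diagC, C.comp_sum, Finset.sum_eq_zero, sub_zero]
  intro j _
  exact rest_comp h j

lemma rest_mem : rest C p ∈ C.gr (X.prod X) X.dim :=
  Submodule.sub_mem _ (C.diagC_mem X) (Submodule.sum_mem _ fun j _ => h.mem j)

lemma isZeroMap_rest (hodd : ∀ j, W.gr X (2 * j + 1) = ⊥) : IsZeroMap (W.act (rest C p)) := by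
  apply isZeroMap_of_gr
  intro l x hx
  rcases Nat.even_or_odd l with hl | hl
  · obtain ⟨i, hi⟩ := hl
    have hi' : l = 2 * i := by omega
    subst hi'
    rw [rest, W.act_sub, LinearMap.sub_apply, W.act_diagC, W.act_sum, LinearMap.sum_apply]
    by_cases hd : X.dim < i
    · rw [W.gr_eq_bot X _ (by omega), Submodule.mem_bot] at hx
      subst hx
      simp
    · rw [Finset.sum_eq_single i]
      · rw [h.same i x hx, sub_self]
      · intro j _ hj
        exact h.other j _ (by omega) x hx
      · intro h1
        exact absurd (Finset.mem_range.2 (by omega)) h1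
  · obtain ⟨i, hi⟩ := hl
    subst hi
    rw [hodd, Submodule.mem_bot] at hx
    rw [hx, map_zero]

lemma isCK_algCK (hodd : ∀ j, W.gr X (2 * j + 1) = ⊥) : W.IsCK X (algCK C p) := by
  have hp : ∀ i j, C.comp (p i) (p j) = if i = j then p i else 0 := by
    intro i j
    split_ifs with hij
    · rw [← hij, h.idem]
    · exact h.orth i j hij
  have key : ∀ i j, C.comp (algCK C p i) (algCK C p j) = if i = j then algCK C p i else 0 := by
    intro i j
    have hr : C.comp (if i = 0 then rest C p else 0) (if j % 2 = 0 then p (j / 2) else 0) = 0 := by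
      split_ifs
      · exact rest_comp h _
      · exact C.comp_zero _
      · exact C.zero_comp _
      · exact C.comp_zero _
    have hr' : C.comp (if i % 2 = 0 then p (i / 2) else 0) (if j = 0 then rest C p else 0) = 0 := by
      split_ifs
      · exact comp_rest h _
      · exact C.comp_zero _
      · exact C.zero_comp _
      · exact C.comp_zero _
    rw [algCK, algCK, C.add_comp, C.comp_add, C.comp_add, hr, hr', add_zero, zero_add]
    by_cases hij : i = j
    · subst hij
      rw [if_pos rfl]
      congr 1
      · split_ifs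
        · exact h.idem _
        · exact C.comp_zero _
      · split_ifs
        · exact rest_idem h
        · exact C.comp_zero _
    · rw [if_neg hij]
      have h1 : C.comp (if i % 2 = 0 then p (i / 2) else 0) (if j % 2 = 0 then p (j / 2) else 0) =
          0 := by
        split_ifs with h2 h3 h3
        · exact h.orth _ _ (by omega)
        · exact C.comp_zero _
        · exact C.zero_comp _
        · exact C.comp_zero _
      have h2 : C.comp (if i = 0 then rest C p else 0) (if j = 0 then rest C p else 0) = 0 := by
        split_ifs with h3 h4 h4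
        · omega
        · exact C.comp_zero _
        · exact C.zero_comp _
        · exact C.comp_zero _
      rw [h1, h2, add_zero]
  refine ⟨fun j => ?_, fun j => ?_, fun i j hij => ?_, ?_, fun j => ?_⟩
  · refine Submodule.add_mem _ ?_ ?_
    · split_ifs
      · exact h.mem _
      · exact Submodule.zero_mem _
    · split_ifs
      · exact rest_mem h
      · exact Submodule.zero_mem _
  · rw [key, if_pos rfl]
  · rw [key, if_neg hij]
  · unfold algCK
    rw [Finset.sum_add_distrib, Finset.sum_ite_eq', if_pos (Finset.mem_range.2 (by omega))]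
    have h1 : ∑ l ∈ Finset.range (2 * X.dim + 1), (if l % 2 = 0 then p (l / 2) else 0) =
        ∑ j ∈ Finset.range (X.dim + 1), p j := by
      rw [← Finset.sum_filter]
      symm
      apply Finset.sum_bij (fun j _ => 2 * j)
      · intro j hj
        rw [Finset.mem_range] at hj
        rw [Finset.mem_filter, Finset.mem_range]
        omega
      · intro i _ j _ hij
        omega
      · intro l hl
        rw [Finset.mem_filter, Finset.mem_range] at hl
        exact ⟨l / 2, Finset.mem_range.2 (by omega), by omega⟩
      · intro j _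
        rw [show 2 * j / 2 = j by omega]
    rw [h1, rest]
    abel
  · intro l x hx
    have h1 : W.act (if j = 0 then rest C p else 0) x = 0 := by
      split_ifs
      · exact isZeroMap_rest h hodd x
      · rw [W.act_zero, LinearMap.zero_apply]
    rw [algCK, W.act_add, LinearMap.add_apply, h1, add_zero]
    by_cases hj : j % 2 = 0
    · rw [if_pos hj]
      by_cases hl : l = j
      · rw [if_pos hl]
        subst hl
        have : l = 2 * (l / 2) := by omega
        rw [this] at hx
        exact h.same _ x hx
      · rw [if_neg hl]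
        exact h.other _ l (by omega) x hx
    · rw [if_neg hj, W.act_zero, LinearMap.zero_apply]
      by_cases hl : l = j
      · rw [if_pos hl]
        have : l = 2 * (l / 2) + 1 := by omega
        rw [this, hodd, Submodule.mem_bot] at hx
        exact hx.symm
      · rw [if_neg hl]

omit h in
lemma algCK_odd (j : ℕ) : algCK C p (2 * j + 1) = 0 := by
  rw [algCK, if_neg (by omega), if_neg (by omega), add_zero]

end

theorem hasCK_of_algebraic (hA : AlgebraicCohomology W X) : W.HasCK X := by
  obtain ⟨p, hp⟩ := exists_algSystem hA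
  exact ⟨_, isCK_algCK hp hA.1⟩

theorem inj_of_indep (hA : AlgebraicCohomology W X) {i m : ℕ} (hm : m ≤ 2 * i)
    (hm' : 2 * i < m + 2 * X.dim) (hI : W.Indep X i m) : ClassInjective W X i := by
  intro x hx h0
  obtain ⟨p, hp⟩ := exists_algSystem hA
  have h := isCK_algCK hp hA.1
  rw [← h.sum_act x]
  refine Finset.sum_eq_zero fun l hl => ?_
  rw [Finset.mem_range] at hl
  rcases Nat.even_or_odd l with hl' | hl'
  · obtain ⟨j, hj⟩ := hl'
    have hj' : l = 2 * j := by omega
    subst hj'
    obtain ⟨n, a, b, hD⟩ := exists_dual (W := W) (X := X) (j := j) (by omega) (hA.2 _) (hA.2 _)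
    exact trans_act h hD (by omega) hm hm' hI hx (Or.inr h0)
  · obtain ⟨j, hj⟩ := hl'
    subst hj
    rw [algCK_odd, C.act_zero, LinearMap.zero_apply]

theorem indep_of_inj {i : ℕ} (hi : ClassInjective W X i) (m : ℕ) : W.Indep X i m := by
  have key : ∀ π : ℕ → C.CH (X.prod X), W.IsCK X π → ∀ x ∈ C.gr X i, ∀ b,
      C.act (π b) x = if 2 * i = b then x else 0 := by
    intro π h x hx b
    rw [← sub_eq_zero]
    apply hi
    · refine Submodule.sub_mem _ (C.act_mem (h.mem b) hx rfl) ?_
      split_ifs
      · exact hx
      · exact Submodule.zero_mem _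
    · rw [map_sub, W.cl_act, h.proj b _ _ (W.cl_mem hx)]
      split_ifs
      · rw [sub_self]
      · rw [map_zero, sub_zero]
  intro π π' h h'
  ext x
  rw [WeilTheory.mem_ckFil h, WeilTheory.mem_ckFil h']
  constructor
  · rintro ⟨hx, h0⟩
    refine ⟨hx, fun b hb => ?_⟩
    rw [key π' h' x hx, ← key π h x hx]
    exact h0 b hb
  · rintro ⟨hx, h0⟩
    refine ⟨hx, fun b hb => ?_⟩
    rw [key π h x hx, ← key π' h' x hx]
    exact h0 b hb

theorem murreC_iff (hA : AlgebraicCohomology W X) (hd : 0 < X.dim) :
    W.MurreC X ↔ ∀ i, ClassInjective W X i := by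
  constructor
  · intro h i
    rcases lt_trichotomy i X.dim with h1 | h1 | h1
    · exact inj_of_indep hA (m := 0) (by omega) (by omega) (h i 0)
    · exact inj_of_indep hA (m := 1) (by omega) (by omega) (h i 1)
    · intro x hx _
      rw [C.gr_eq_bot X i h1, Submodule.mem_bot] at hx
      exact hx
  · intro h i m
    exact indep_of_inj (h i) m

/-! ### surfaces -/

lemma algebraicIn_zero (X : 𝒱.Obj) : AlgebraicIn W X 0 := by
  intro x hx
  rw [mul_zero, (W.isPoincareAlgebra X).gr_zero] at hx
  refine Submodule.span_mono ?_ hx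
  rintro _ rfl
  exact ⟨1, C.one_mem X, map_one _⟩

lemma algebraicIn_top (hP : C.Polarized) (X : 𝒱.Obj) : AlgebraicIn W X X.dim := by
  obtain ⟨D, hD, hdeg⟩ := hP X
  have hpow : ∀ m, D ^ m ∈ C.gr X m := by
    intro m
    induction m with
    | zero => rw [pow_zero]; exact C.one_mem X
    | succ m ih => rw [pow_succ]; exact C.mul_mem ih hD
  have hdeg' : (C.deg X (D ^ X.dim) : W.K) ≠ 0 := by exact_mod_cast hdeg
  intro x hx
  have h1 : x = (W.tr X x / (C.deg X (D ^ X.dim) : W.K)) • W.cl X (D ^ X.dim) := by
    rw [← sub_eq_zero]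
    set y := x - (W.tr X x / (C.deg X (D ^ X.dim) : W.K)) • W.cl X (D ^ X.dim) with hy
    have hygr : y ∈ W.gr X (2 * X.dim) :=
      Submodule.sub_mem _ hx (Submodule.smul_mem _ _ (W.cl_mem (hpow _)))
    have hytr : W.tr X y = 0 := by
      rw [hy, map_sub, map_smul, W.tr_cl, smul_eq_mul, div_mul_cancel₀ _ hdeg', sub_self]
    apply W.nondeg
    intro c
    refine gr_induction (W.isInternal X) (p := fun c => W.tr X (y * c) = 0) ?_ ?_ c
    · intro m c hc
      by_cases hm : m = 0
      · subst hm
        rw [(W.isPoincareAlgebra X).gr_zero, Submodule.mem_span_singleton] at hc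
        obtain ⟨t, rfl⟩ := hc
        rw [mul_smul_comm, mul_one, map_smul, hytr, smul_zero]
      · exact W.tr_eq_zero (W.mul_mem hygr hc) (by omega)
    · intro c c' hc hc'
      rw [mul_add, map_add, hc, hc', add_zero]
  rw [h1]
  exact Submodule.smul_mem _ _ (Submodule.subset_span ⟨_, hpow _, rfl⟩)

lemma gr_eq_bot_of_dual {i j : ℕ} (hij : i + j = 2 * X.dim) (h : W.gr X i = ⊥) :
    W.gr X j = ⊥ := by
  rw [Submodule.eq_bot_iff]
  intro x hx
  apply W.nondeg
  intro c
  refine gr_induction (W.isInternal X) (p := fun c => W.tr X (x * c) = 0) ?_ ?_ c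
  · intro m c hc
    by_cases hm : m = i
    · subst hm
      rw [h, Submodule.mem_bot] at hc
      rw [hc, mul_zero, map_zero]
    · exact W.tr_eq_zero (W.mul_mem hx hc) (by omega)
  · intro c c' hc hc'
    rw [mul_add, map_add, hc, hc', add_zero]

theorem algebraic_surface (hP : C.Polarized) (hd : X.dim = 2) (h1 : W.gr X 1 = ⊥)
    (h2 : AlgebraicIn W X 1) : AlgebraicCohomology W X := by
  constructor
  · intro j
    rcases Nat.lt_or_ge j 2 with hj | hj
    · interval_cases j
      · exact h1
      · exact gr_eq_bot_of_dual (i := 1) (j := 3) (by omega) h1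
    · exact W.gr_eq_bot X _ (by omega)
  · intro j
    rcases Nat.lt_or_ge 2 j with hj | hj
    · intro x hx
      rw [W.gr_eq_bot X _ (by omega), Submodule.mem_bot] at hx
      rw [hx]
      exact Submodule.zero_mem _
    · interval_cases j
      · exact algebraicIn_zero X
      · exact h2
      · have := algebraicIn_top (W := W) hP X
        rwa [hd] at this

/-- In top codimension the class map is injective if and only if the zero-cycles of degree zero
vanish. -/
lemma classInjective_top (X : 𝒱.Obj) :
    ClassInjective W X X.dim ↔ ZeroCyclesTrivial C X := by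
  constructor
  · intro h x hx h0
    apply h x hx
    have htr : W.tr X (W.cl X x) = 0 := by rw [W.tr_cl, h0, Rat.cast_zero]
    apply W.nondeg
    intro c
    refine gr_induction (W.isInternal X) (p := fun c => W.tr X (W.cl X x * c) = 0) ?_ ?_ c
    · intro m c hc
      by_cases hm : m = 0
      · subst hm
        rw [(W.isPoincareAlgebra X).gr_zero, Submodule.mem_span_singleton] at hc
        obtain ⟨t, rfl⟩ := hc
        rw [mul_smul_comm, mul_one, map_smul, htr, smul_zero]
      · exact W.tr_eq_zero (W.mul_mem (W.cl_mem hx) hc) (by omega)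
    · intro c c' hc hc'
      rw [mul_add, map_add, hc, hc', add_zero]
  · intro h x hx h0
    apply h x hx
    have : (C.deg X x : W.K) = 0 := by rw [← W.tr_cl, h0, map_zero]
    exact_mod_cast this

end Pool.Agent.K1H20.CK
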