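import Pool.Agent.R903.MurreDefs

/-!
# Independence of the Chow–Künneth filtration: definitions
-/

open CategoryTheory CategoryTheory.Limits AlgebraicGeometry
open Pool.Agent.H914 Pool.Agent.H914.VarClass Pool.Agent.H914.VarClass.Obj Pool.Agent.R903

universe u v w

namespace Pool.Agent.K1H20.CK

variable {k : Type u} [Field k] {𝒱 : VarClass k} {C : ChowTheory.{u, v} 𝒱}

/-- `(π 0 + ⋯ + π m) ∘ CH^(dim X)(X × X)`. -/
def weightIdeal (C : ChowTheory.{u, v} 𝒱) {X : 𝒱.Obj} (π : ℕ → C.CH (X.prod X)) (m : ℕ) :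
    Set (C.CH (X.prod X)) :=
  {δ | ∃ γ ∈ C.gr (X.prod X) X.dim, C.comp γ (∑ j ∈ Finset.range (m + 1), π j) = δ}

/-- The right ideals `(π 0 + ⋯ + π m) ∘ CH^(dim X)(X × X)` are the same for all Chow–Künneth
decompositions of `X`. -/
def WeightIndep (W : WeilTheory.{u, v, w} C) (X : 𝒱.Obj) : Prop :=
  ∀ π π' : ℕ → C.CH (X.prod X), W.IsCK X π → W.IsCK X π' →
    ∀ m, weightIdeal C π m = weightIdeal C π' m

/-- The operator `T` is zero. -/
def IsZeroOp {V : Type v} [AddCommGroup V] [Module ℚ V] (T : V →ₗ[ℚ] V) : Prop :=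
  ∀ a, T a = 0

/-- The correspondences `π b ∘ γ ∘ π a`, `γ` in `CH^(dim X)(X × X)`, act as zero on `CH^*(X)` for
all `a < b`. -/
def ActTriangular (C : ChowTheory.{u, v} 𝒱) {X : 𝒱.Obj} (π : ℕ → C.CH (X.prod X)) : Prop :=
  ∀ a b, a < b → ∀ γ ∈ C.gr (X.prod X) X.dim, IsZeroOp (C.act (C.comp (C.comp (π a) γ) (π b)))

/-- If `e` is an idempotent in `CH^(dim X)(X × X)` which acts as zero on the cohomology and commutes
with all `π j`, then `e` acts as zero on `CH^*(X)`. -/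
def PhantomsActZero (W : WeilTheory.{u, v, w} C) {X : 𝒱.Obj} (π : ℕ → C.CH (X.prod X)) : Prop :=
  ∀ e ∈ C.gr (X.prod X) X.dim, C.comp e e = e → IsZeroMap (W.act e) →
    (∀ j, C.comp (π j) e = C.comp e (π j)) → IsZeroOp (C.act e)

/-- The elements of `CH^(dim X)(X × X)` which act as zero on the cohomology of `X` act on `CH^*(X)`
as nilpotent operators. -/
def ActNilpotent (W : WeilTheory.{u, v, w} C) (X : 𝒱.Obj) : Prop :=
  ∀ e ∈ C.gr (X.prod X) X.dim, IsZeroMap (W.act e) → ∃ N : ℕ, ∀ x, (C.act e)^[N] x = 0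

/-- `X` has no phantoms, and there is one Chow–Künneth decomposition of `X` with
`Hom(h^a(X), h^b(X)) = 0` for all `a < b`. -/
def NoPhantomsAndTriangular (W : WeilTheory.{u, v, w} C) (X : 𝒱.Obj) : Prop :=
  W.NoPhantoms X ∧ ∃ π : ℕ → C.CH (X.prod X), W.IsCK X π ∧ C.IsTriangular π

/-- For each Chow–Künneth decomposition of `X` and each `i` one has `F^0 CH^i(X) = CH^i(X)`. -/
def Exhaustive (W : WeilTheory.{u, v, w} C) (X : 𝒱.Obj) : Prop :=
  ∀ π : ℕ → C.CH (X.prod X), W.IsCK X π → ∀ i, C.ckFil π i 0 = C.gr X i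

end Pool.Agent.K1H20.CK
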