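import Pool.Agent.K1H20.CK.Act
import Pool.Agent.K1H20.CK.AlgDefs

/-!
# Dual bases of algebraic classes and the corresponding projectors
-/

open CategoryTheory CategoryTheory.Limits AlgebraicGeometry
open Pool.Agent.H914 Pool.Agent.H914.VarClass Pool.Agent.H914.VarClass.Obj Pool.Agent.R903

universe u v w

namespace Pool.Agent.K1H20.CK

variable {k : Type u} [Field k] {𝒱 : VarClass k} {C : ChowTheory.{u, v} 𝒱}
  {W : WeilTheory.{u, v, w} C} {X : 𝒱.Obj} {π : ℕ → C.CH (X.prod X)}

lemma deg_eq_zero (W : WeilTheory.{u, v, w} C) {p : ℕ} {x : C.CH X} (hx : x ∈ C.gr X p)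
    (hp : p ≠ X.dim) : C.deg X x = 0 := by
  have h : (C.deg X x : W.K) = 0 := by
    rw [← W.tr_cl, W.tr_eq_zero (W.cl_mem hx) (by omega)]
  exact_mod_cast h

lemma deg_congr (W : WeilTheory.{u, v, w} C) {x y : C.CH X} (h : W.cl X x = W.cl X y)
    (z : C.CH X) : C.deg X (x * z) = C.deg X (y * z) := by
  have h1 : (C.deg X (x * z) : W.K) = (C.deg X (y * z) : W.K) := by
    rw [← W.tr_cl, ← W.tr_cl, W.cl_mul, W.cl_mul, h]
  exact_mod_cast h1

lemma comp_ext (x y : C.CH X) (w : C.CH (X.prod X)) :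
    C.comp (C.ext x y) w = C.ext x (C.act w y) := by
  rw [← C.act_opL, C.act_opL_ext]

lemma ext_smul (q : ℚ) (x y : C.CH X) : C.ext x (q • y) = q • C.ext x y := by
  rw [ChowTheory.ext, ChowTheory.ext, map_smul, mul_smul_comm]

lemma hact_ext (y z : C.CH X) (x : W.H X) :
    W.act (C.ext y z) x = W.tr X (W.cl X y * x) • W.cl X z := by
  have h1 : W.cl _ (C.ext y z) * W.map (fst X X) x =
      W.map (fst X X) (W.cl X y * x) * W.map (snd X X) (W.cl X z) := by
    rw [ChowTheory.ext, W.cl_mul, W.cl_pull, W.cl_pull, W.map_mul', mul_assoc, mul_assoc]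
    congr 1
    refine gr_induction (C.isInternal X) (p := fun z => W.map (snd X X) (W.cl X z) *
      W.map (fst X X) x = W.map (fst X X) x * W.map (snd X X) (W.cl X z)) ?_ ?_ z
    · intro i z hz
      exact W.even_comm (W.map_mem _ (W.cl_mem hz)) _
    · intro z z' h h'
      rw [map_add, map_add, add_mul, mul_add, h, h']
  rw [WeilTheory.act_apply, h1, W.push_snd]

/-- dual families of algebraic classes -/
structure DualFamily (W : WeilTheory.{u, v, w} C) (X : 𝒱.Obj) (j n : ℕ)
    (a b : Fin n → C.CH X) : Prop where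
  memA : ∀ s, a s ∈ C.gr X j
  memB : ∀ s, b s ∈ C.gr X (X.dim - j)
  dual : ∀ s t, C.deg X (a s * b t) = if s = t then 1 else 0
  span : W.gr X (2 * j) ≤ Submodule.span W.K (Set.range fun s => W.cl X (a s))

lemma exists_dual {j : ℕ} (hj : j ≤ X.dim) (h1 : AlgebraicIn W X j)
    (h2 : AlgebraicIn W X (X.dim - j)) :
    ∃ (n : ℕ) (a b : Fin n → C.CH X), DualFamily W X j n a b := by
  classical
  obtain ⟨B, hB, hspan, hli⟩ := exists_linearIndependent W.K
    {b | ∃ x ∈ C.gr X j, W.cl X x = b}
  have hfin : Module.Finite W.K (W.H X) := (W.isPoincareAlgebra X).finite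
  have hBf : B.Finite := hli.setFinite
  have : Finite B := hBf
  obtain ⟨n, ⟨e⟩⟩ := Finite.exists_equiv_fin B
  have hc : ∀ s : Fin n, ∃ x ∈ C.gr X j, W.cl X x = (e.symm s : W.H X) := fun s =>
    hB (e.symm s).2
  choose a ha hcl using hc
  have hli' : LinearIndependent W.K (fun s => W.cl X (a s)) := by
    have h3 : (fun s => W.cl X (a s)) = (Subtype.val : B → W.H X) ∘ e.symm := by
      ext s
      exact hcl s
    rw [h3]
    exact hli.comp _ e.symm.injective
  have hrange : (Set.range fun s => W.cl X (a s)) = B := by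
    ext z
    constructor
    · rintro ⟨s, rfl⟩
      change W.cl X (a s) ∈ B
      rw [hcl]
      exact (e.symm s).2
    · intro hz
      refine ⟨e ⟨z, hz⟩, ?_⟩
      change W.cl X (a _) = z
      rw [hcl, Equiv.symm_apply_apply]
  -- the pairing with the `a s`
  let Φ : (C.gr X (X.dim - j)) →ₗ[ℚ] (Fin n → ℚ) :=
    LinearMap.pi fun s => C.deg X ∘ₗ LinearMap.mulLeft ℚ (a s) ∘ₗ (C.gr X (X.dim - j)).subtype
  have hΦ : ∀ y s, Φ y s = C.deg X (a s * y) := fun y s => rfl
  have htop : LinearMap.range Φ = ⊤ := by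
    by_contra hne
    obtain ⟨f, hf, hle⟩ := Submodule.exists_le_ker_of_lt_top _ (lt_top_iff_ne_top.2 hne)
    have hfs : ∀ v : Fin n → ℚ, f v = ∑ s, v s * f (Pi.single s 1) := by
      intro v
      conv_lhs => rw [pi_eq_sum_univ' v]
      rw [map_sum]
      refine Finset.sum_congr rfl fun s _ => ?_
      rw [map_smul, smul_eq_mul]
    set A := ∑ s, f (Pi.single s 1) • a s with hA
    have hAdeg : ∀ y ∈ C.gr X (X.dim - j), C.deg X (A * y) = 0 := by
      intro y hy
      have h3 : f (Φ ⟨y, hy⟩) = 0 := hle ⟨_, rfl⟩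
      rw [hfs] at h3
      rw [hA, Finset.sum_mul, map_sum, ← h3]
      refine Finset.sum_congr rfl fun s _ => ?_
      rw [smul_mul_assoc, map_smul, smul_eq_mul, hΦ, mul_comm]
    have hAgr : A ∈ C.gr X j := Submodule.sum_mem _ fun s _ => Submodule.smul_mem _ _ (ha s)
    have hclA : W.cl X A = 0 := by
      apply W.nondeg
      intro z
      refine gr_induction (W.isInternal X) (p := fun z => W.tr X (W.cl X A * z) = 0) ?_ ?_ z
      · intro m z hz
        by_cases hm : 2 * j + m = 2 * X.dim
        · have hm' : m = 2 * (X.dim - j) := by omega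
          subst hm'
          have hz' := h2 _ hz
          refine Submodule.span_induction (p := fun z _ => W.tr X (W.cl X A * z) = 0)
            ?_ ?_ ?_ ?_ hz'
          · rintro _ ⟨y, hy, rfl⟩
            rw [← W.cl_mul, W.tr_cl, hAdeg y hy, Rat.cast_zero]
          · rw [mul_zero, map_zero]
          · intro x y _ _ hx hy
            rw [mul_add, map_add, hx, hy, add_zero]
          · intro c x _ hx
            rw [mul_smul_comm, map_smul, hx, smul_zero]
        · exact W.tr_eq_zero (W.mul_mem (W.cl_mem hAgr) hz) hm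
      · intro z z' hz hz'
        rw [mul_add, map_add, hz, hz', add_zero]
    apply hf
    apply LinearMap.ext
    intro v
    rw [hfs, LinearMap.zero_apply]
    have hclA' : ∑ s, (f (Pi.single s 1) : W.K) • W.cl X (a s) = 0 := by
      rw [← hclA, hA, map_sum]
      refine Finset.sum_congr rfl fun s _ => ?_
      rw [W.cl_smul]
    refine Finset.sum_eq_zero fun s _ => ?_
    have h4 := Fintype.linearIndependent_iff.1 hli' (fun s => (f (Pi.single s 1) : W.K)) hclA' s
    have h5 : f (Pi.single s 1) = 0 := by exact_mod_cast h4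
    rw [h5, mul_zero]
  have hb : ∀ t : Fin n, ∃ y : C.gr X (X.dim - j), Φ y = Pi.single t 1 := by
    intro t
    have : (Pi.single t 1 : Fin n → ℚ) ∈ LinearMap.range Φ := by rw [htop]; trivial
    exact this
  choose b hb using hb
  refine ⟨n, a, fun t => b t, ha, fun t => (b t).2, fun s t => ?_, ?_⟩
  · rw [← hΦ (b t) s, hb, Pi.single_apply]
  · rw [hrange, hspan]
    exact fun a ha => h1 a ha

end Pool.Agent.K1H20.CK
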