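import Pool.Agent.R903.MurreDefs

/-!
# Functoriality of the Chow–Künneth filtration: definitions
-/

open CategoryTheory CategoryTheory.Limits AlgebraicGeometry
open Pool.Agent.H914 Pool.Agent.H914.VarClass Pool.Agent.H914.VarClass.Obj Pool.Agent.R903

universe u v w

namespace Pool.Agent.K1H20.CK

variable {k : Type u} [Field k] {𝒱 : VarClass k} {C : ChowTheory.{u, v} 𝒱}

/-- For all Chow–Künneth decompositions `π` of `X` and `ρ` of `Y` and all correspondences `γ` in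
`CH^c(X × Y)` one has `γ_* F_π^m CH^i(X) ⊆ F_ρ^m CH^j(Y)`, where `j = i + c - dim X`. -/
def FunctorialFor (W : WeilTheory.{u, v, w} C) (X Y : 𝒱.Obj) : Prop :=
  ∀ (π : ℕ → C.CH (X.prod X)) (ρ : ℕ → C.CH (Y.prod Y)), W.IsCK X π → W.IsCK Y ρ →
    ∀ c i j m, i + c = j + X.dim → ∀ γ ∈ C.gr (X.prod Y) c, ∀ x ∈ C.ckFil π i m,
      C.act γ x ∈ C.ckFil ρ j m

/-- For all Chow–Künneth decompositions `π` of `X` and `ρ` of `Y` one has `ρ b ∘ γ ∘ π a = 0` for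
`γ` in `CH^c(X × Y)` and `b > a + 2 (c - dim X)`. -/
def BlocksVanish (W : WeilTheory.{u, v, w} C) (X Y : 𝒱.Obj) : Prop :=
  ∀ (π : ℕ → C.CH (X.prod X)) (ρ : ℕ → C.CH (Y.prod Y)), W.IsCK X π → W.IsCK Y ρ →
    ∀ a b c, a + 2 * c < b + 2 * X.dim → ∀ γ ∈ C.gr (X.prod Y) c,
      C.comp (C.comp (π a) γ) (ρ b) = 0

/-- `F^m CH^i(X) · F^n CH^j(X) ⊆ F^(m + n) CH^(i + j)(X)` for each Chow–Künneth decomposition. -/
def Multiplicative (W : WeilTheory.{u, v, w} C) (X : 𝒱.Obj) : Prop :=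
  ∀ π : ℕ → C.CH (X.prod X), W.IsCK X π → ∀ i j m n, ∀ x ∈ C.ckFil π i m, ∀ y ∈ C.ckFil π j n,
    x * y ∈ C.ckFil π (i + j) (m + n)

/-- The filtration defined by `π` is stable under all correspondences in `CH^(dim X)(X × X)`. -/
def Stable (C : ChowTheory.{u, v} 𝒱) {X : 𝒱.Obj} (π : ℕ → C.CH (X.prod X)) : Prop :=
  ∀ i m, ∀ γ ∈ C.gr (X.prod X) X.dim, ∀ x ∈ C.ckFil π i m, C.act γ x ∈ C.ckFil π i m

end Pool.Agent.K1H20.CK
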