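import Pool.Agent.K1H20.CK.Nil
import Pool.Agent.K1H20.CK.FuncDefs

/-!
# Functoriality of the Chow–Künneth filtration
-/

open CategoryTheory CategoryTheory.Limits AlgebraicGeometry
open Pool.Agent.H914 Pool.Agent.H914.VarClass Pool.Agent.H914.VarClass.Obj Pool.Agent.R903

universe u v w

namespace Pool.Agent.K1H20.CK

variable {k : Type u} [Field k] {𝒱 : VarClass k} {C : ChowTheory.{u, v} 𝒱}
  {W : WeilTheory.{u, v, w} C} {X Y : 𝒱.Obj}

/-- the action of the product decomposition on a block -/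
lemma act_prod_block {π : ℕ → C.CH (X.prod X)} {ρ : ℕ → C.CH (Y.prod Y)} (h : W.IsCK X π)
    (h' : W.IsCK Y ρ) {a : ℕ} (ha : a ≤ 2 * X.dim) (b : ℕ) (γ : C.CH (X.prod Y)) :
    C.act (WeilTheory.prodCK C (WeilTheory.transCK C π) ρ (2 * X.dim - a + b))
      (C.comp (C.comp (π a) γ) (ρ b)) = C.comp (C.comp (π a) γ) (ρ b) := by
  rw [WeilTheory.prodCK, WeilTheory.act_sum_apply]
  rw [Finset.sum_eq_single (2 * X.dim - a, b)]
  · have ha : 2 * X.dim - a ≤ 2 * X.dim := Nat.sub_le _ _
    have ha2 : 2 * X.dim - (2 * X.dim - a) = a := by omega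
    rw [WeilTheory.transCK, if_pos ha, C.act_tensor, ha2, ← C.comp_assoc, ← C.comp_assoc, h.idem,
      C.comp_assoc, h'.idem]
  · rintro ⟨p, q⟩ _ hne
    rw [WeilTheory.transCK]
    split_ifs with hp
    · rw [C.act_tensor]
      by_cases hpa : 2 * X.dim - p = a
      · have hqb : b ≠ q := by
          rintro rfl
          apply hne
          have hp : p = 2 * X.dim - a := by
            dsimp only at *
            omega
          rw [hp]
        rw [C.comp_assoc, C.comp_assoc, h'.orth b q hqb, C.comp_zero, C.comp_zero]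
      · rw [← C.comp_assoc, ← C.comp_assoc, h.orth _ _ hpa, C.zero_comp, C.zero_comp,
          C.zero_comp]
    · rw [C.zero_tensor, C.act_zero, LinearMap.zero_apply]
  · intro hnot
    exact (hnot (Finset.HasAntidiagonal.mem_antidiagonal.2 rfl)).elim

/-- The first half of (B) for `X × Y` implies that the blocks vanish. -/
theorem blocksVanish (hB : ∀ i, W.MurreB0 (X.prod Y) i) : BlocksVanish W X Y := by
  intro π ρ h h' a b c habc γ hγ
  by_cases ha : 2 * X.dim < a
  · rw [h.eq_zero ha, C.zero_comp, C.zero_comp]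
  have hCK := h.transp.prod h'
  have h1 := (WeilTheory.ckFil_zero_eq_iff hCK).1 (hB c _ hCK) (2 * X.dim - a + b) (by omega)
    (C.comp (C.comp (π a) γ) (ρ b))
    (C.comp_mem (C.comp_mem (h.mem a) hγ (add_comm _ _)) (h'.mem b) rfl)
  rwa [act_prod_block h h' (by omega)] at h1

theorem functorialFor (hV : BlocksVanish W X Y) : FunctorialFor W X Y := by
  intro π ρ h h' c i j m hij γ hγ x hx
  rw [WeilTheory.mem_ckFil h] at hx
  rw [WeilTheory.mem_ckFil h']
  refine ⟨C.act_mem hγ hx.1 hij, fun b hb => ?_⟩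
  rw [← h.sum_act x, map_sum, map_sum]
  refine Finset.sum_eq_zero fun a _ => ?_
  by_cases ha : 2 * i < a + m
  · rw [hx.2 a ha, map_zero, map_zero]
  · rw [← C.act_comp, ← C.act_comp, ← C.comp_assoc, hV π ρ h h' a b c (by omega) γ hγ,
      C.act_zero, LinearMap.zero_apply]

/-- Functoriality under the identity correspondence is independence. -/
theorem murreC_of_functorialFor (hF : FunctorialFor W X X) : W.MurreC X := by
  have key : ∀ (i m : ℕ) (π π' : ℕ → C.CH (X.prod X)), W.IsCK X π → W.IsCK X π' →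
      C.ckFil π i m ≤ C.ckFil π' i m := by
    intro i m π π' h h' x hx
    have := hF π π' h h' X.dim i i m rfl _ (C.diagC_mem X) x hx
    rwa [C.act_diagC] at this
  intro i m π π' h h'
  exact le_antisymm (key i m π π' h h') (key i m π' π h' h)

/-! ### products of cycles -/

lemma act_tensor_ext (α : C.CH (X.prod X)) (β : C.CH (Y.prod Y)) (x : C.CH X) (y : C.CH Y) :
    C.act (C.tensor α β) (C.ext x y) = C.ext (C.act α x) (C.act β y) := by
  rw [C.tensor_eq, C.act_comp, C.act_opM_ext, C.act_opL_ext]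

lemma ext_zero (x : C.CH X) : C.ext x (0 : C.CH Y) = 0 := by
  rw [ChowTheory.ext, map_zero, mul_zero]

lemma zero_ext (y : C.CH Y) : C.ext (0 : C.CH X) y = 0 := by
  rw [ChowTheory.ext, map_zero, zero_mul]

lemma ext_mem_ckFil {π : ℕ → C.CH (X.prod X)} {ρ : ℕ → C.CH (Y.prod Y)} (h : W.IsCK X π)
    (h' : W.IsCK Y ρ) {i j m n : ℕ} {x : C.CH X} {y : C.CH Y} (hx : x ∈ C.ckFil π i m)
    (hy : y ∈ C.ckFil ρ j n) : C.ext x y ∈ C.ckFil (WeilTheory.prodCK C π ρ) (i + j) (m + n) := by
  rw [WeilTheory.mem_ckFil h] at hx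
  rw [WeilTheory.mem_ckFil h'] at hy
  rw [WeilTheory.mem_ckFil (h.prod h')]
  refine ⟨C.ext_mem hx.1 hy.1, fun b hb => ?_⟩
  rw [WeilTheory.prodCK, WeilTheory.act_sum_apply]
  refine Finset.sum_eq_zero fun p hp => ?_
  rw [Finset.HasAntidiagonal.mem_antidiagonal] at hp
  rw [act_tensor_ext]
  by_cases h1 : 2 * i < p.1 + m
  · rw [hx.2 _ h1, zero_ext]
  · rw [hy.2 _ (by omega), ext_zero]

theorem multiplicative (hF : FunctorialFor W (X.prod X) X) : Multiplicative W X := by
  intro π h i j m n x hx y hy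
  have h1 := ext_mem_ckFil h h hx hy
  have h2 := hF _ π (h.prod h) h (X.prod X).dim (i + j) (i + j) (m + n) rfl _
    (C.cograph_mem (diag X)) _ h1
  rwa [C.act_cograph, C.pull_diag_ext] at h2

/-- `F^1` consists of homologically trivial classes. -/
lemma cl_eq_zero {π : ℕ → C.CH (X.prod X)} (h : W.IsCK X π) {i : ℕ} {x : C.CH X}
    (hx : x ∈ C.ckFil π i 1) : W.cl X x = 0 := by
  rw [WeilTheory.mem_ckFil h] at hx
  have h1 := h.proj (2 * i) _ _ (W.cl_mem hx.1)
  rw [if_pos rfl, ← W.cl_act, hx.2 (2 * i) (by omega), map_zero] at h1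
  exact h1.symm

/-! ### stability under self-correspondences -/

variable {π : ℕ → C.CH (X.prod X)}

/-- a stable filtration is exhaustive -/
lemma murreB0_of_stable (hP : C.Polarized) (h : W.IsCK X π) (hS : Stable C π) (i : ℕ) :
    C.ckFil π i 0 = C.gr X i := by
  apply le_antisymm
  · intro x hx
    rw [WeilTheory.mem_ckFil h] at hx
    exact hx.1
  · intro x hx
    by_cases hi : X.dim < i
    · rw [C.gr_eq_bot X i hi, Submodule.mem_bot] at hx
      rw [hx]
      exact Submodule.zero_mem _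
    obtain ⟨D, hD, hdeg⟩ := hP X
    have hpow : ∀ m, D ^ m ∈ C.gr X m := by
      intro m
      induction m with
      | zero => rw [pow_zero]; exact C.one_mem X
      | succ m ih => rw [pow_succ]; exact C.mul_mem ih hD
    have h1 : C.act (π (2 * i)) (D ^ i) ∈ C.ckFil π i 0 := by
      rw [WeilTheory.mem_ckFil h]
      refine ⟨C.act_mem (h.mem _) (hpow i) rfl, fun b hb => ?_⟩
      rw [h.act_act, if_neg (by omega)]
    have h2 : C.ext (D ^ (X.dim - i)) x ∈ C.gr (X.prod X) X.dim := by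
      have := C.ext_mem (hpow (X.dim - i)) hx
      rwa [Nat.sub_add_cancel (by omega)] at this
    have h3 := hS i 0 _ h2 _ h1
    rw [C.act_ext] at h3
    have h4 : (C.deg X (C.act (π (2 * i)) (D ^ i) * D ^ (X.dim - i)) : W.K) =
        (C.deg X (D ^ X.dim) : W.K) := by
      rw [← W.tr_cl, ← W.tr_cl, W.cl_mul, W.cl_act, h.proj _ _ _ (W.cl_mem (hpow i)), if_pos rfl,
        ← W.cl_mul, ← pow_add, Nat.add_sub_cancel' (by omega)]
    have h5 : C.deg X (C.act (π (2 * i)) (D ^ i) * D ^ (X.dim - i)) = C.deg X (D ^ X.dim) := by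
      exact_mod_cast h4
    rw [h5] at h3
    have h6 := Submodule.smul_mem _ (C.deg X (D ^ X.dim))⁻¹ h3
    rwa [smul_smul, inv_mul_cancel₀ hdeg, one_smul] at h6

lemma actTriangular_of_stable (hP : C.Polarized) (h : W.IsCK X π) (hS : Stable C π) :
    ActTriangular C π := by
  intro a b hab γ hγ
  apply isZeroOp_of_gr
  intro i x hx
  rw [C.act_comp, C.act_comp]
  by_cases ha : 2 * i < a
  · rw [(WeilTheory.ckFil_zero_eq_iff h).1 (murreB0_of_stable hP h hS i) a ha x hx, map_zero,
      map_zero]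
  have hz : C.act (π a) x ∈ C.ckFil π i (2 * i - a) := by
    rw [WeilTheory.mem_ckFil h]
    refine ⟨C.act_mem (h.mem a) hx rfl, fun c hc => ?_⟩
    rw [h.act_act, if_neg (by omega)]
  have h1 := hS i _ γ hγ _ hz
  rw [WeilTheory.mem_ckFil h] at h1
  exact h1.2 b (by omega)

lemma stable_of_actTriangular (h : W.IsCK X π) (hT : ActTriangular C π) : Stable C π := by
  intro i m γ hγ x hx
  rw [WeilTheory.mem_ckFil h] at hx ⊢
  refine ⟨C.act_mem hγ hx.1 rfl, fun b hb => ?_⟩
  rw [← h.sum_act x, map_sum, map_sum]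
  refine Finset.sum_eq_zero fun a _ => ?_
  by_cases ha : 2 * i < a + m
  · rw [hx.2 a ha, map_zero, map_zero]
  · rw [← C.act_comp, ← C.act_comp, ← C.comp_assoc]
    exact hT a b (by omega) γ hγ x

end Pool.Agent.K1H20.CK
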