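import Pool.Agent.K1H20.CK.Move

/-!
# Independence of the Chow–Künneth filtration and phantoms
-/

open CategoryTheory CategoryTheory.Limits AlgebraicGeometry
open Pool.Agent.H914 Pool.Agent.H914.VarClass Pool.Agent.H914.VarClass.Obj Pool.Agent.R903

universe u v w

namespace Pool.Agent.K1H20.CK

variable {k : Type u} [Field k] {𝒱 : VarClass k} {C : ChowTheory.{u, v} 𝒱}
  {W : WeilTheory.{u, v, w} C} {X : 𝒱.Obj} {π π' : ℕ → C.CH (X.prod X)}

lemma isZeroMap_of_gr (T : W.H X →ₗ[W.K] W.H X) (h : ∀ l, ∀ a ∈ W.gr X l, T a = 0) :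
    IsZeroMap T := by
  intro a
  refine gr_induction (W.isInternal X) (p := fun a => T a = 0) h ?_ a
  intro b c hb hc
  rw [map_add, hb, hc, add_zero]

/-- the homogeneous component, described by duality -/
lemma exists_component (l : ℕ) (y : W.H X) :
    ∃ z ∈ W.gr X l, ∀ m, l + m = 2 * X.dim → ∀ c ∈ W.gr X m, W.tr X (y * c) = W.tr X (z * c) := by
  refine gr_induction (W.isInternal X) (p := fun y => ∃ z ∈ W.gr X l, ∀ m, l + m = 2 * X.dim →
    ∀ c ∈ W.gr X m, W.tr X (y * c) = W.tr X (z * c)) ?_ ?_ y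
  · intro j y hy
    by_cases hj : j = l
    · subst hj
      exact ⟨y, hy, fun _ _ _ _ => rfl⟩
    · refine ⟨0, Submodule.zero_mem _, fun m hm c hc => ?_⟩
      rw [W.tr_eq_zero (W.mul_mem hy hc) (by omega), zero_mul, map_zero]
  · rintro y y' ⟨z, hz, h⟩ ⟨z', hz', h'⟩
    refine ⟨z + z', Submodule.add_mem _ hz hz', fun m hm c hc => ?_⟩
    rw [add_mul, add_mul, map_add, map_add, h m hm c hc, h' m hm c hc]

/-- a correspondence of degree zero preserves the degrees -/
lemma act_mem_gr {γ : C.CH (X.prod X)} (hγ : γ ∈ C.gr (X.prod X) X.dim) {l : ℕ} {x : W.H X}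
    (hx : x ∈ W.gr X l) : W.act γ x ∈ W.gr X l := by
  obtain ⟨z, hz, h⟩ := exists_component (W := W) l (W.act γ x)
  have h1 : W.act γ x = z := by
    apply W.tr_ext
    intro c
    refine gr_induction (W.isInternal X)
      (p := fun c => W.tr X (W.act γ x * c) = W.tr X (z * c)) ?_ ?_ c
    · intro m c hc
      by_cases hm : l + m = 2 * X.dim
      · exact h m hm c hc
      · rw [W.tr_eq_zero (W.mul_mem hz hc) hm, WeilTheory.act_apply, W.tr_push]
        refine W.tr_eq_zero (W.mul_mem (W.mul_mem (W.cl_mem hγ) (W.map_mem _ hx))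
          (W.map_mem _ hc)) ?_
        rw [dim_prod]
        omega
    · intro c c' hc hc'
      rw [mul_add, mul_add, map_add, map_add, hc, hc']
  rw [h1]
  exact hz

lemma isZeroMap_block (h : W.IsCK X π) (h' : W.IsCK X π') {γ : C.CH (X.prod X)}
    (hγ : γ ∈ C.gr (X.prod X) X.dim) {a b : ℕ} (hab : a ≠ b) :
    IsZeroMap (W.act (C.comp (C.comp (π a) γ) (π' b))) := by
  apply isZeroMap_of_gr
  intro l x hx
  rw [W.act_comp _ (h'.mem b), W.act_comp _ hγ, h.proj a l x hx]
  split_ifs with hl
  · rw [h'.proj b l _ (act_mem_gr hγ hx), if_neg (by omega)]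
  · rw [map_zero, map_zero]

lemma isZeroMap_diag (h : W.IsCK X π) (h' : W.IsCK X π') {a b : ℕ} (hab : a ≠ b) :
    IsZeroMap (W.act (C.comp (C.comp (π a) (π' b)) (π a))) := by
  apply isZeroMap_of_gr
  intro l x hx
  rw [W.act_comp _ (h.mem a), W.act_comp _ (h'.mem b), h.proj a l x hx]
  split_ifs with hl
  · rw [h'.proj b l x hx, if_neg (by omega), map_zero]
  · rw [map_zero, map_zero]

lemma isZeroMap_conj (h : W.IsCK X π) {e : C.CH (X.prod X)} (he : e ∈ C.gr (X.prod X) X.dim)
    (h0 : IsZeroMap (W.act e)) (a b : ℕ) :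
    IsZeroMap (W.act (C.comp (C.comp (π a) e) (π b))) := by
  intro x
  rw [W.act_comp _ (h.mem b), W.act_comp _ he, h0, map_zero]

lemma of_inj {x y : C.CH (X.prod X)} (h : CorrRing.of C X x = CorrRing.of C X y) : x = y :=
  (CorrRing.of C X).injective h

lemma of_block (x g y : C.CH (X.prod X)) :
    CorrRing.of C X y * CorrRing.of C X g * CorrRing.of C X x =
      CorrRing.of C X (C.comp (C.comp x g) y) := by
  rw [CorrRing.of_mul, CorrRing.of_mul, ← C.comp_assoc]

/-- All pairs of Chow–Künneth decompositions satisfy `π' b ∘ π a = 0` for `a < b`. -/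
def PairZero (W : WeilTheory.{u, v, w} C) (X : 𝒱.Obj) : Prop :=
  ∀ π π' : ℕ → C.CH (X.prod X), W.IsCK X π → W.IsCK X π' →
    ∀ a b, a < b → C.comp (π a) (π' b) = 0

lemma comp_partial (h' : W.IsCK X π') {x : C.CH (X.prod X)} {m : ℕ}
    (h0 : ∀ b, m < b → C.comp x (π' b) = 0) :
    C.comp x (∑ b ∈ Finset.range (m + 1), π' b) = x := by
  conv_rhs => rw [← C.comp_diagC x, ← h'.sum]
  rw [C.comp_sum, C.comp_sum]
  have h1 : ∑ b ∈ Finset.range (m + 1), C.comp x (π' b) =
      ∑ b ∈ Finset.range (m + 1) ∩ Finset.range (2 * X.dim + 1), C.comp x (π' b) := by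
    refine (Finset.sum_subset Finset.inter_subset_left fun j _ h2 => ?_).symm
    have : 2 * X.dim < j := by
      by_contra h3
      exact h2 (Finset.mem_inter.2 ⟨‹_›, Finset.mem_range.2 (by omega)⟩)
    rw [h'.eq_zero this, C.comp_zero]
  have h2 : ∑ b ∈ Finset.range (2 * X.dim + 1), C.comp x (π' b) =
      ∑ b ∈ Finset.range (m + 1) ∩ Finset.range (2 * X.dim + 1), C.comp x (π' b) := by
    refine (Finset.sum_subset Finset.inter_subset_right fun j h1 h2 => ?_).symm
    refine h0 j ?_
    by_contra h3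
    exact h2 (Finset.mem_inter.2 ⟨Finset.mem_range.2 (by omega), ‹_›⟩)
  rw [h1, h2]

lemma weightIndep_iff : WeightIndep W X ↔ PairZero W X := by
  constructor
  · intro h π π' hπ hπ' a b hab
    have h1 : π a ∈ weightIdeal C π a := by
      refine ⟨π a, hπ.mem a, ?_⟩
      apply comp_partial hπ
      intro c hc
      exact hπ.orth a c (by omega)
    rw [h π π' hπ hπ' a] at h1
    obtain ⟨γ, _, h2⟩ := h1
    rw [← h2, C.comp_assoc, C.sum_comp, Finset.sum_eq_zero, C.comp_zero]
    intro j hj
    rw [Finset.mem_range] at hj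
    exact hπ'.orth j b (by omega)
  · intro h
    have key : ∀ π π' : ℕ → C.CH (X.prod X), W.IsCK X π → W.IsCK X π' →
        ∀ m, weightIdeal C π m ⊆ weightIdeal C π' m := by
      rintro π π' hπ hπ' m δ ⟨γ, hγ, rfl⟩
      refine ⟨C.comp γ (∑ j ∈ Finset.range (m + 1), π j),
        C.comp_mem hγ (Submodule.sum_mem _ fun j _ => hπ.mem j) rfl, ?_⟩
      apply comp_partial hπ'
      intro b hb
      rw [C.comp_assoc, C.sum_comp, Finset.sum_eq_zero, C.comp_zero]
      intro j hj
      rw [Finset.mem_range] at hj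
      exact h π π' hπ hπ' j b (by omega)
    intro π π' hπ hπ' m
    exact Set.Subset.antisymm (key π π' hπ hπ' m) (key π' π hπ' hπ m)

lemma pairZero_of_triangular (hT : W.Triangular X) : PairZero W X := by
  intro π π' h h' a b hab
  exact hT.comp_eq_zero h h' hab

/-- one triangular decomposition and no phantoms imply the vanishing for all pairs -/
theorem triangular_of (hN : W.NoPhantoms X) (h : W.IsCK X π) (hT : C.IsTriangular π) :
    W.Triangular X := by
  have tri : ∀ γ ∈ C.gr (X.prod X) X.dim, ∀ a b, a < b →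
      CorrRing.of C X (π b) * CorrRing.of C X γ * CorrRing.of C X (π a) = 0 := by
    intro γ hγ a b hab
    rw [of_block, hT a b hab γ hγ, map_zero]
  have hp := toCO h
  have main : ∀ π' : ℕ → C.CH (X.prod X), W.IsCK X π' →
      (∀ a b, a < b → CorrRing.of C X (π' b) * CorrRing.of C X (π a) = 0) ∧
      ∀ a b, a < b → CorrRing.of C X (π b) * CorrRing.of C X (π' a) = 0 := by
    intro π' h'
    refine hp.mixed (toCO h') (fun a b hab c => tri _ (h'.mem c) a b hab) ?_
    intro a b hab
    have h1 := hp.diag_idem (toCO h' |>.idem b) (fun c d hcd => tri _ (h'.mem b) c d hcd) a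
    rw [of_block] at h1 ⊢
    rw [CorrRing.of_mul] at h1
    have h2 := hN _ (C.comp_mem (C.comp_mem (h.mem a) (h'.mem b) rfl) (h.mem a) rfl) (of_inj h1)
      (isZeroMap_diag h h' hab)
    rw [h2, map_zero]
  intro π' π'' h' h'' a b hab γ hγ
  have h3 := hp.mixed_blocks (q := fun j => CorrRing.of C X (π'' j))
    (r := fun j => CorrRing.of C X (π' j)) (CorrRing.of C X γ)
    (fun c d hcd => tri _ hγ c d hcd) (main π'' h'').1 (main π' h').2 a b hab
  rw [of_block] at h3
  apply of_inj
  rw [h3, map_zero]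

/-- pairwise vanishing implies triangularity of each decomposition -/
theorem isTriangular_of_pairZero (hZ : PairZero W X) (h : W.IsCK X π) : C.IsTriangular π := by
  intro a b hab γ hγ
  by_cases hb : 2 * X.dim < b
  · rw [h.eq_zero hb, C.comp_zero]
  set φ := C.comp (C.comp (π a) γ) (π b) with hφ
  have h0 : W.act φ = 0 := LinearMap.ext (isZeroMap_block h h hγ (by omega))
  have hs : C.comp (π a) φ = φ := by rw [hφ, ← C.comp_assoc, ← C.comp_assoc, h.idem]
  have ht : C.comp φ (π b) = φ := by rw [hφ, C.comp_assoc, h.idem]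
  have hCK := h.shift (C.comp_mem (C.comp_mem (h.mem a) hγ rfl) (h.mem b) rfl) h0
    (s := a) (t := b) (by omega) hs ht (by omega) (by omega)
  have h1 := hZ π _ h hCK a b hab
  rw [WeilTheory.shiftCK, if_neg (by omega), if_pos rfl, C.comp_add, h.orth a b (by omega),
    C.comp_smul, hs] at h1
  simpa using h1

/-- a phantom in `h^a(X)` vanishes -/
lemma phantom_block (hZ : PairZero W X) (hd : 0 < X.dim) (h : W.IsCK X π)
    {e : C.CH (X.prod X)} (he : e ∈ C.gr (X.prod X) X.dim) (hi : C.comp e e = e)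
    (h0 : IsZeroMap (W.act e)) {a : ℕ} (h1 : C.comp (π a) e = e) (h2 : C.comp e (π a) = e) :
    e = 0 := by
  have h3 : ∀ j, C.comp (π j) e = if j = a then e else 0 := by
    intro j
    conv_lhs => rw [← h1]
    rw [← C.comp_assoc, h.comp_eq]
    split_ifs with hj
    · rw [hj, h1]
    · exact C.zero_comp _
  have h4 : ∀ j, C.comp e (π j) = if j = a then e else 0 := by
    intro j
    conv_lhs => rw [← h2]
    rw [C.comp_assoc, h.comp_eq]
    by_cases hj : a = j
    · rw [if_pos hj, if_pos hj.symm, h2]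
    · rw [if_neg hj, if_neg (Ne.symm hj), C.comp_zero]
  have hc : ∀ j, C.comp (π j) e = C.comp e (π j) := by
    intro j
    rw [h3, h4]
  by_cases ha : 2 * X.dim < a
  · rw [← h1, h.eq_zero ha, C.zero_comp]
  by_cases ha' : a < 2 * X.dim
  · have hm := move h he hi h0 hc (s := a + 1) (by omega)
    have h5 := hZ π _ h hm a (a + 1) (by omega)
    rw [moveCK, if_pos rfl, C.comp_add, comp_sub', h3 (a + 1), if_neg (by omega), C.comp_zero,
      h.orth a (a + 1) (by omega), h1] at h5
    simpa using h5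
  · have hm := move h he hi h0 hc (s := a - 1) (by omega)
    have h5 := hZ _ π hm h (a - 1) a (by omega)
    rw [moveCK, if_pos rfl, C.add_comp, sub_comp', h3 (a - 1), if_neg (by omega), C.zero_comp,
      h.orth (a - 1) a (by omega), h2] at h5
    simpa using h5

theorem noPhantoms_of_pairZero (hZ : PairZero W X) (hd : 0 < X.dim) (h : W.IsCK X π) :
    W.NoPhantoms X := by
  intro e he hi h0
  have hT := isTriangular_of_pairZero hZ h
  have hp := toCO h
  have tri : ∀ a b, a < b →
      CorrRing.of C X (π b) * CorrRing.of C X e * CorrRing.of C X (π a) = 0 := by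
    intro a b hab
    rw [of_block, hT a b hab e he, map_zero]
  have hi' : CorrRing.of C X e * CorrRing.of C X e = CorrRing.of C X e := by
    rw [CorrRing.of_mul, hi]
  apply of_inj
  rw [map_zero]
  apply hp.eq_zero_of_diag hi' tri
  intro a
  have h1 := hp.diag_idem hi' tri a
  rw [of_block] at h1 ⊢
  rw [CorrRing.of_mul] at h1
  have h2 : C.comp (C.comp (π a) e) (π a) = 0 := by
    refine phantom_block hZ hd h (C.comp_mem (C.comp_mem (h.mem a) he rfl) (h.mem a) rfl)
      (of_inj h1) (isZeroMap_conj h he h0 a a) (a := a) ?_ ?_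
    · rw [← C.comp_assoc, ← C.comp_assoc, h.idem]
    · rw [C.comp_assoc, h.idem]
  rw [h2, map_zero]

end Pool.Agent.K1H20.CK
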