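import Pool.Agent.R903.Murre
import Pool.Agent.K1H20.CK.Alg
import Pool.Agent.K1H20.CK.Defs

/-!
# Moving a homologically trivial summand of a Chow–Künneth decomposition to another degree
-/

open CategoryTheory CategoryTheory.Limits AlgebraicGeometry
open Pool.Agent.H914 Pool.Agent.H914.VarClass Pool.Agent.H914.VarClass.Obj Pool.Agent.R903

universe u v w

namespace Pool.Agent.K1H20.CK

variable {k : Type u} [Field k] {𝒱 : VarClass k} {C : ChowTheory.{u, v} 𝒱}
  {W : WeilTheory.{u, v, w} C} {X : 𝒱.Obj} {π π' : ℕ → C.CH (X.prod X)}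

lemma sub_comp' (α α' β : C.CH (X.prod X)) :
    C.comp (α - α') β = C.comp α β - C.comp α' β := by
  have h := C.add_comp (α - α') α' β
  rw [sub_add_cancel] at h
  rw [h, add_sub_cancel_right]

lemma comp_sub' (α β β' : C.CH (X.prod X)) :
    C.comp α (β - β') = C.comp α β - C.comp α β' := by
  have h := C.comp_add α (β - β') β'
  rw [sub_add_cancel] at h
  rw [h, add_sub_cancel_right]

lemma toCO (h : W.IsCK X π) : CO (2 * X.dim) (fun j => CorrRing.of C X (π j)) where
  idem j := by rw [← CorrRing.of_comp, h.idem]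
  orth i j hij := by rw [← CorrRing.of_comp, h.orth j i (Ne.symm hij), map_zero]
  sum := by rw [← map_sum, h.sum, CorrRing.of_one]

/-- the decomposition obtained by moving the idempotent `e` to degree `s` -/
noncomputable def moveCK (C : ChowTheory.{u, v} 𝒱) {X : 𝒱.Obj} (π : ℕ → C.CH (X.prod X))
    (e : C.CH (X.prod X)) (s : ℕ) (j : ℕ) : C.CH (X.prod X) :=
  π j - C.comp (π j) e + if j = s then e else 0

lemma move (h : W.IsCK X π) {e : C.CH (X.prod X)} (he : e ∈ C.gr (X.prod X) X.dim)
    (hi : C.comp e e = e) (h0 : IsZeroMap (W.act e))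
    (hc : ∀ j, C.comp (π j) e = C.comp e (π j)) {s : ℕ} (hs : s ≤ 2 * X.dim) :
    W.IsCK X (moveCK C π e s) := by
  have h1 : ∀ i, C.comp (π i - C.comp (π i) e) e = 0 := by
    intro i
    rw [sub_comp', C.comp_assoc, hi, sub_self]
  have h2 : ∀ i, C.comp e (π i - C.comp (π i) e) = 0 := by
    intro i
    rw [comp_sub', ← C.comp_assoc, ← hc, C.comp_assoc, hi, sub_self]
  have h3 : ∀ i j, C.comp (π i - C.comp (π i) e) (π j - C.comp (π j) e) =
      if i = j then π i - C.comp (π i) e else 0 := by
    intro i j
    have h4 : C.comp (C.comp (π i) e) (π j - C.comp (π j) e) = 0 := by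
      rw [C.comp_assoc, h2, C.comp_zero]
    rw [sub_comp', h4, sub_zero, comp_sub', ← C.comp_assoc, h.comp_eq]
    split_ifs
    · rfl
    · rw [C.zero_comp, sub_zero]
  have key : ∀ i j, C.comp (moveCK C π e s i) (moveCK C π e s j) =
      if i = j then moveCK C π e s i else 0 := by
    intro i j
    rw [moveCK, moveCK, C.add_comp, C.comp_add, C.comp_add, h3]
    by_cases hi' : i = s
    · by_cases hj : j = s
      · rw [if_pos hi', if_pos hj, h1, h2, hi, if_pos (hi'.trans hj.symm),
          if_pos (hi'.trans hj.symm)]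
        simp
      · rw [if_pos hi', if_neg hj, h2, C.comp_zero, C.comp_zero, if_neg (by rw [hi']; exact Ne.symm hj),
          if_neg (by rw [hi']; exact Ne.symm hj)]
        simp
    · by_cases hj : j = s
      · rw [if_neg hi', if_pos hj, h1, C.zero_comp, C.zero_comp, if_neg (by rw [hj]; exact hi'),
          if_neg (by rw [hj]; exact hi')]
        simp
      · rw [if_neg hi', if_neg hj, C.comp_zero, C.zero_comp, C.zero_comp]
        simp
  refine ⟨fun j => ?_, fun j => ?_, fun i j hij => ?_, ?_, fun j => ?_⟩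
  · refine Submodule.add_mem _ (Submodule.sub_mem _ (h.mem j) (C.comp_mem (h.mem j) he rfl)) ?_
    split_ifs
    · exact he
    · exact Submodule.zero_mem _
  · rw [key, if_pos rfl]
  · rw [key, if_neg hij]
  · unfold moveCK
    rw [Finset.sum_add_distrib, Finset.sum_sub_distrib, ← C.sum_comp, h.sum, C.diagC_comp,
      Finset.sum_ite_eq', if_pos (Finset.mem_range.2 (by omega)), sub_add_cancel]
  · intro l a ha
    have h5 : W.act (C.comp (π j) e) a = 0 := by
      rw [W.act_comp _ he, h0]
    have h6 : W.act (if j = s then e else 0) a = 0 := by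
      split_ifs
      · exact h0 a
      · rw [W.act_zero, LinearMap.zero_apply]
    rw [moveCK, W.act_add, W.act_sub, LinearMap.add_apply, LinearMap.sub_apply, h5, h6, sub_zero,
      add_zero]
    exact h.proj j l a ha

end Pool.Agent.K1H20.CK
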