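import Pool.Agent.K1H20.CK.Act

/-!
# The case in which homologically trivial correspondences act nilpotently
-/

open CategoryTheory CategoryTheory.Limits AlgebraicGeometry
open Pool.Agent.H914 Pool.Agent.H914.VarClass Pool.Agent.H914.VarClass.Obj Pool.Agent.R903

universe u v w

namespace Pool.Agent.K1H20.CK

variable {k : Type u} [Field k] {𝒱 : VarClass k} {C : ChowTheory.{u, v} 𝒱}
  {W : WeilTheory.{u, v, w} C} {X : 𝒱.Obj} {π π' : ℕ → C.CH (X.prod X)}

/-- the operators of a Chow–Künneth decomposition on the Chow groups -/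
lemma actCO (h : W.IsCK X π) :
    CO (A := Module.End ℚ (C.CH X)) (2 * X.dim) (fun j => C.act (π j)) where
  idem j := by
    ext x
    rw [Module.End.mul_apply, h.act_act, if_pos rfl]
  orth i j hij := by
    ext x
    rw [Module.End.mul_apply, h.act_act, if_neg hij, LinearMap.zero_apply]
  sum := by
    ext x
    rw [LinearMap.sum_apply, h.sum_act, Module.End.one_apply]

lemma act_block (x g y : C.CH (X.prod X)) :
    (C.act y * C.act g * C.act x : Module.End ℚ (C.CH X)) = C.act (C.comp (C.comp x g) y) := by
  ext z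
  rw [Module.End.mul_apply, Module.End.mul_apply, C.act_comp, C.act_comp]

lemma eq_zero_of_idem_nil {V : Type*} [AddCommGroup V] [Module ℚ V] {T : Module.End ℚ V}
    (hi : T * T = T) {N : ℕ} (hN : ∀ x, T^[N] x = 0) : T = 0 := by
  have h1 : ∀ m x, T^[m + 1] x = T x := by
    intro m
    induction m with
    | zero => intro x; rfl
    | succ m ih =>
      intro x
      rw [Function.iterate_succ_apply', ih]
      exact LinearMap.congr_fun hi x
  ext x
  rw [← h1 N x, Function.iterate_succ_apply', hN, map_zero, LinearMap.zero_apply]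

/-- one decomposition which acts in a triangular way implies independence -/
theorem murreC_of_act (hn : ActNilpotent W X) (h : W.IsCK X π) (hT : ActTriangular C π) :
    W.MurreC X := by
  have tri : ∀ γ ∈ C.gr (X.prod X) X.dim, ∀ a b, a < b →
      (C.act (π b) * C.act γ * C.act (π a) : Module.End ℚ (C.CH X)) = 0 := by
    intro γ hγ a b hab
    rw [act_block]
    ext x
    rw [hT a b hab γ hγ x, LinearMap.zero_apply]
  have hp := actCO h
  have main : ∀ π' : ℕ → C.CH (X.prod X), W.IsCK X π' →
      (∀ a b, a < b → (C.act (π' b) * C.act (π a) : Module.End ℚ (C.CH X)) = 0) ∧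
      ∀ a b, a < b → (C.act (π b) * C.act (π' a) : Module.End ℚ (C.CH X)) = 0 := by
    intro π' h'
    refine hp.mixed (actCO h') (fun a b hab c => tri _ (h'.mem c) a b hab) ?_
    intro a b hab
    have h1 := hp.diag_idem (actCO h' |>.idem b) (fun c d hcd => tri _ (h'.mem b) c d hcd) a
    rw [act_block] at h1 ⊢
    obtain ⟨N, hN⟩ := hn _ (C.comp_mem (C.comp_mem (h.mem a) (h'.mem b) rfl) (h.mem a) rfl)
      (isZeroMap_diag h h' hab)
    exact eq_zero_of_idem_nil h1 hN
  apply murreC_of_pair
  intro π' π'' h' h'' a b hab x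
  have h3 := hp.mixed_blocks (q := fun j => C.act (π'' j)) (r := fun j => C.act (π' j)) 1
    (fun c d hcd => by rw [mul_one]; exact hp.orth d c (by omega))
    (main π'' h'').1 (main π' h').2 a b hab
  rw [mul_one] at h3
  exact LinearMap.congr_fun h3 x

end Pool.Agent.K1H20.CK
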