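import Pool.Agent.K1H20.CK.Dual

/-!
# The projector given by dual families of algebraic classes
-/

open CategoryTheory CategoryTheory.Limits AlgebraicGeometry
open Pool.Agent.H914 Pool.Agent.H914.VarClass Pool.Agent.H914.VarClass.Obj Pool.Agent.R903

universe u v w

namespace Pool.Agent.K1H20.CK

variable {k : Type u} [Field k] {𝒱 : VarClass k} {C : ChowTheory.{u, v} 𝒱}
  {W : WeilTheory.{u, v, w} C} {X : 𝒱.Obj} {π : ℕ → C.CH (X.prod X)}

/-- `∑ b_s × a_s` -/
noncomputable def algProj (C : ChowTheory.{u, v} 𝒱) {X : 𝒱.Obj} {n : ℕ}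
    (a b : Fin n → C.CH X) : C.CH (X.prod X) := ∑ s, C.ext (b s) (a s)

variable {j n : ℕ} {a b : Fin n → C.CH X}

lemma algProj_mem (h : DualFamily W X j n a b) (hj : j ≤ X.dim) :
    algProj C a b ∈ C.gr (X.prod X) X.dim := by
  refine Submodule.sum_mem _ fun s _ => ?_
  have := C.ext_mem (h.memB s) (h.memA s)
  rwa [Nat.sub_add_cancel hj] at this

lemma act_algProj (x : C.CH X) :
    C.act (algProj C a b) x = ∑ s, C.deg X (x * b s) • a s := by
  rw [algProj, WeilTheory.act_sum_apply]
  refine Finset.sum_congr rfl fun s _ => ?_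
  rw [C.act_ext]

lemma hact_algProj (x : W.H X) :
    W.act (algProj C a b) x = ∑ s, W.tr X (W.cl X (b s) * x) • W.cl X (a s) := by
  rw [algProj, W.act_sum, LinearMap.sum_apply]
  refine Finset.sum_congr rfl fun s _ => ?_
  rw [hact_ext]

lemma algProj_comp (w : C.CH (X.prod X)) :
    C.comp (algProj C a b) w = algProj C (fun s => C.act w (a s)) b := by
  rw [algProj, C.sum_comp, algProj]
  refine Finset.sum_congr rfl fun s _ => ?_
  rw [comp_ext]

lemma dual_apply (h : DualFamily W X j n a b) {a' : Fin n → C.CH X}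
    (ha' : ∀ s, W.cl X (a' s) = W.cl X (a s)) (s : Fin n) :
    C.act (algProj C a' b) (a' s) = a' s := by
  rw [act_algProj, Finset.sum_eq_single s]
  · rw [deg_congr W (ha' s), h.dual, if_pos rfl, one_smul]
  · intro t _ ht
    rw [deg_congr W (ha' s), h.dual, if_neg (Ne.symm ht), zero_smul]
  · intro h1
    exact absurd (Finset.mem_univ s) h1

lemma algProj_idem (h : DualFamily W X j n a b) {a' : Fin n → C.CH X}
    (ha' : ∀ s, W.cl X (a' s) = W.cl X (a s)) :
    C.comp (algProj C a' b) (algProj C a' b) = algProj C a' b := by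
  rw [algProj_comp]
  congr 1
  ext s
  exact dual_apply h ha' s

lemma hact_algProj_same (h : DualFamily W X j n a b) {a' : Fin n → C.CH X}
    (ha' : ∀ s, W.cl X (a' s) = W.cl X (a s)) {x : W.H X} (hx : x ∈ W.gr X (2 * j)) :
    W.act (algProj C a' b) x = x := by
  have h1 : ∀ s, W.act (algProj C a' b) (W.cl X (a s)) = W.cl X (a s) := by
    intro s
    rw [← ha', ← W.cl_act, dual_apply h ha']
  refine Submodule.span_induction (p := fun x _ => W.act (algProj C a' b) x = x)
    ?_ ?_ ?_ ?_ (h.span hx)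
  · rintro _ ⟨s, rfl⟩
    exact h1 s
  · rw [map_zero]
  · intro x y _ _ hx hy
    rw [map_add, hx, hy]
  · intro c x _ hx
    rw [map_smul, hx]

lemma hact_algProj_other (h : DualFamily W X j n a b) (hj : j ≤ X.dim) {a' : Fin n → C.CH X}
    {l : ℕ} (hl : l ≠ 2 * j) {x : W.H X} (hx : x ∈ W.gr X l) :
    W.act (algProj C a' b) x = 0 := by
  rw [hact_algProj]
  refine Finset.sum_eq_zero fun s _ => ?_
  rw [W.tr_eq_zero (W.mul_mem (W.cl_mem (h.memB s)) hx) (by omega), zero_smul]

/-! ### the transcendental part -/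

/-- the part of `h^(2j)(X)` given by the algebraic classes -/
noncomputable def algPart (C : ChowTheory.{u, v} 𝒱) {X : 𝒱.Obj} {n : ℕ}
    (π : ℕ → C.CH (X.prod X)) (j : ℕ) (a b : Fin n → C.CH X) : C.CH (X.prod X) :=
  C.comp (π (2 * j)) (algProj C (fun s => C.act (π (2 * j)) (a s)) b)

section

variable (h : W.IsCK X π) (hD : DualFamily W X j n a b) (hj : j ≤ X.dim)
include h hD

lemma cl_proj_eq (s : Fin n) : W.cl X (C.act (π (2 * j)) (a s)) = W.cl X (a s) := by
  rw [W.cl_act, h.proj _ _ _ (W.cl_mem (hD.memA s)), if_pos rfl]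

omit hD in
lemma algProj_right :
    C.comp (algProj C (fun s => C.act (π (2 * j)) (a s)) b) (π (2 * j)) =
      algProj C (fun s => C.act (π (2 * j)) (a s)) b := by
  rw [algProj_comp]
  congr 1
  ext s
  rw [h.act_act, if_pos rfl]

omit hD in
lemma algPart_left : C.comp (π (2 * j)) (algPart C π j a b) = algPart C π j a b := by
  rw [algPart, ← C.comp_assoc, h.idem]

omit hD in
lemma algPart_right : C.comp (algPart C π j a b) (π (2 * j)) = algPart C π j a b := by
  rw [algPart, C.comp_assoc, algProj_right h]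

lemma algPart_idem : C.comp (algPart C π j a b) (algPart C π j a b) = algPart C π j a b := by
  have h1 := algProj_idem hD (cl_proj_eq h hD)
  have h2 := algProj_right h (a := a) (b := b) (j := j)
  rw [algPart, C.comp_assoc]
  congr 1
  rw [← C.comp_assoc, h2, h1]

include hj in
lemma algPart_mem : algPart C π j a b ∈ C.gr (X.prod X) X.dim := by
  refine C.comp_mem (h.mem _) ?_ rfl
  refine Submodule.sum_mem _ fun s _ => ?_
  have := C.ext_mem (hD.memB s) (C.act_mem (h.mem (2 * j)) (hD.memA s) rfl)
  rwa [Nat.sub_add_cancel hj] at this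

include hj in
lemma isZeroMap_trans : IsZeroMap (W.act (π (2 * j) - algPart C π j a b)) := by
  apply isZeroMap_of_gr
  intro l x hx
  have hmem : algProj C (fun s => C.act (π (2 * j)) (a s)) b ∈ C.gr (X.prod X) X.dim := by
    refine Submodule.sum_mem _ fun s _ => ?_
    have := C.ext_mem (hD.memB s) (C.act_mem (h.mem (2 * j)) (hD.memA s) rfl)
    rwa [Nat.sub_add_cancel hj] at this
  rw [W.act_sub, LinearMap.sub_apply, algPart, W.act_comp _ hmem, h.proj _ l x hx]
  split_ifs with hl
  · subst hl
    rw [hact_algProj_same hD (cl_proj_eq h hD) hx, sub_self]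
  · rw [map_zero, sub_zero]

/-- Independence kills the transcendental part of `h^(2j)(X)` if `H^(2j)(X)` is algebraic. -/
theorem trans_act {i m : ℕ} (hj : j ≤ X.dim) (hm : m ≤ 2 * i) (hm' : 2 * i < m + 2 * X.dim)
    (hI : W.Indep X i m) {x : C.CH X} (hx : x ∈ C.gr X i) (hij : i ≠ j ∨ W.cl X x = 0) :
    C.act (π (2 * j)) x = 0 := by
  have hp := algPart_mem h hD hj
  have e1 := algPart_left h (a := a) (b := b) (j := j)
  have e2 := algPart_right h (a := a) (b := b) (j := j)
  have e3 := algPart_idem h hD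
  have h1 : C.act (π (2 * j) - algPart C π j a b) x = 0 := by
    refine phantom_act h (Submodule.sub_mem _ (h.mem _) hp) ?_ (isZeroMap_trans h hD hj) ?_
      hm hm' hI hx
    · rw [sub_comp', comp_sub', comp_sub', h.idem, e1, e2, e3, sub_self, sub_zero]
    · intro l
      rw [sub_comp', comp_sub', h.comp_eq, h.comp_eq]
      by_cases hl : l = 2 * j
      · subst hl
        rw [if_pos rfl, e1, e2]
      · rw [if_neg hl, if_neg (Ne.symm hl)]
        have e4 : C.comp (π l) (algPart C π j a b) = 0 := by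
          rw [← e1, ← C.comp_assoc, h.orth _ _ hl, C.zero_comp]
        have e5 : C.comp (algPart C π j a b) (π l) = 0 := by
          rw [← e2, C.comp_assoc, h.orth _ _ (Ne.symm hl), C.comp_zero]
        rw [e4, e5]
  have h2 : C.act (algPart C π j a b) x = 0 := by
    rw [algPart, C.act_comp, act_algProj]
    refine Finset.sum_eq_zero fun s _ => ?_
    have h3 : C.deg X (C.act (π (2 * j)) x * b s) = 0 := by
      by_cases hi : i = j
      · have hx0 := hij.resolve_left (fun h4 => h4 hi)
        have h4 : W.cl X (C.act (π (2 * j)) x) = W.cl X 0 := by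
          rw [W.cl_act, hx0, map_zero, map_zero]
        rw [deg_congr W h4, zero_mul, map_zero]
      · by_cases hd : X.dim < i
        · rw [C.gr_eq_bot X i hd, Submodule.mem_bot] at hx
          rw [hx, map_zero, zero_mul, map_zero]
        · exact deg_eq_zero W (C.mul_mem (C.act_mem (h.mem _) hx rfl) (hD.memB s)) (by omega)
    rw [h3, zero_smul]
  rw [C.act_sub, LinearMap.sub_apply, h2, sub_zero] at h1
  exact h1

end

end Pool.Agent.K1H20.CK
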